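import Pool.Agent.Helper21.SG.A.Defs

/-! Canonical splittings and the canonical process. -/

namespace Pool.Agent.Helper21.SG

open MulAction

/-- A canonical splitting. If `G` splits over finite groups, it is a splitting over finite groups
whose vertex groups do not split over finite groups. Otherwise every vertex group is virtually free
or fixes a vertex in every splitting of `G`. -/
def Canonical {G : Type} [Group G] (S : Splitting FinVZ G) : Prop :=
  (Splits FinC G → (∀ u v, S.T.Adj u v → Finite ↥(stabilizer G u ⊓ stabilizer G v)) ∧
    ∀ v : S.V, ¬ Splits FinC (stabilizer G v)) ∧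
  (¬ Splits FinC G → ∀ v : S.V, VFree (stabilizer G v) ∨
    ∀ S' : Splitting FinVZ G, ∃ w : S'.V, stabilizer G v ≤ stabilizer G w)

/-- Every sequence of canonical choices starting with `G` stops after at most `n` stages. -/
def CanonicalStops : ℕ → ∀ (G : Type) [Group G], Prop
  | 0, G, _ => ¬ Splits FinVZ G
  | n + 1, G, _ => ∀ S : Splitting FinVZ G, Canonical S → ∀ v : S.V,
      CanonicalStops n (stabilizer G v)

end Pool.Agent.Helper21.SG
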