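import Pool.Agent.Helper21.SG.Defs

/-! Classes of groups. -/

namespace Pool.Agent.Helper21.SG

/-- A class of groups. -/
abbrev GroupClass : Type 1 := ∀ (G : Type) [Group G], Prop

end Pool.Agent.Helper21.SG
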