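import Pool.Agent.Helper21.SG.A.Restrict

/-! Non-splitting finitely generated groups are elliptic; invariance under isomorphism. -/

namespace Pool.Agent.Helper21.SG

open SimpleGraph Function MulAction

variable {C : GroupClass} {G H : Type} [Group G] [Group H]

/-- A finitely generated group that does not split over `C` fixes a vertex in each splitting. -/
theorem exists_fixed (hC : SubClosed C) (S : Splitting C G) (f : H →* G) (hf : Injective f)
    [Group.FG H] (hns : ¬ Splits C H) : ∃ v : S.V, ∀ h : H, f h • v = v := by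
  by_contra hno
  push Not at hno
  obtain ⟨S', -⟩ := exists_restrict hC S f hf hno
  exact hns ⟨S'⟩

/-- transport of a splitting along an isomorphism -/
def Splitting.transport (hC : SubClosed C) (S : Splitting C G) (e : H ≃* G) : Splitting C H :=
  letI act' : MulAction H S.V := MulAction.compHom S.V e.toMonoidHom
  { V := S.V
    act := act'
    T := S.T
    tree := S.tree
    adj := fun h u v huv => S.adj (e h) u v huv
    noinv := fun h u v huv hh => S.noinv (e h) u v huv hh
    fin := by
      obtain ⟨F, hF, h⟩ := S.fin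
      refine ⟨F, hF, fun u v huv => ?_⟩
      obtain ⟨g, hg⟩ := h u v huv
      refine ⟨e.symm g, ?_⟩
      have h1 : ∀ x : S.V, (e.symm g : H) • x = g • x := by
        intro x
        show (e (e.symm g)) • x = g • x
        rw [MulEquiv.apply_symm_apply]
      rw [h1, h1]
      exact hg
    edge := fun u v huv => by
      let g : ↥(@MulAction.stabilizer H S.V _ act' u ⊓ @MulAction.stabilizer H S.V _ act' v) →*
          ↥(MulAction.stabilizer G u ⊓ MulAction.stabilizer G v) :=
        (e.toMonoidHom.comp (Subgroup.subtype _)).codRestrict _ (by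
          rintro ⟨h, hh1, hh2⟩
          exact ⟨hh1, hh2⟩)
      refine hC _ _ g ?_ (S.edge _ _ huv)
      intro a b hab
      exact Subtype.ext (e.injective (congrArg Subtype.val hab))
    nofix := fun v => by
      obtain ⟨g, hg⟩ := S.nofix v
      refine ⟨e.symm g, fun h => hg ?_⟩
      have h1 : (e (e.symm g)) • v = v := h
      rwa [MulEquiv.apply_symm_apply] at h1 }

theorem Splits.congr (hC : SubClosed C) (e : H ≃* G) (h : Splits C G) : Splits C H :=
  h.elim fun S => ⟨S.transport hC e⟩

theorem splits_iff (hC : SubClosed C) (e : H ≃* G) : Splits C H ↔ Splits C G :=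
  ⟨fun h => h.congr hC e.symm, fun h => h.congr hC e⟩

theorem SubClosed.iff (hC : SubClosed C) (e : H ≃* G) : C H ↔ C G :=
  ⟨fun h => hC _ _ e.symm.toMonoidHom e.symm.injective h,
    fun h => hC _ _ e.toMonoidHom e.injective h⟩

/-- The process can be stopped within `n` stages at groups in the class `Q`. -/
def ReachIn (C Q : GroupClass) : ℕ → ∀ (G : Type) [Group G], Prop
  | 0, G, _ => Q G
  | n + 1, G, _ => Q G ∨ ∃ S : Splitting C G, ∀ v : S.V, ReachIn C Q n (stabilizer G v)

/-- invariance under isomorphism -/
def IsoClosed (Q : GroupClass) : Prop :=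
  ∀ (H G : Type) [Group H] [Group G] (_ : H ≃* G), Q G → Q H

/-- The stabiliser for the transported action. -/
def stabEquiv (hC : SubClosed C) (S : Splitting C G) (e : H ≃* G) (v : S.V) :
    ↥(@stabilizer H (S.transport hC e).V _ (S.transport hC e).act v) ≃* ↥(stabilizer G v) where
  toFun x := ⟨e x.1, x.2⟩
  invFun x := ⟨e.symm x.1, by
    show e (e.symm x.1) • v = v
    rw [MulEquiv.apply_symm_apply]
    exact x.2⟩
  left_inv x := Subtype.ext (e.symm_apply_apply _)
  right_inv x := Subtype.ext (e.apply_symm_apply _)
  map_mul' x y := Subtype.ext (map_mul e _ _)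

theorem reachIn_congr (hC : SubClosed C) {Q : GroupClass} (hQ : IsoClosed Q) :
    ∀ (n : ℕ) (G H : Type) [Group G] [Group H] (_ : H ≃* G), ReachIn C Q n G → ReachIn C Q n H := by
  intro n
  induction n with
  | zero => intro G H _ _ e h; exact hQ _ _ e h
  | succ n ih =>
    intro G H _ _ e h
    rcases h with h | ⟨S, hS⟩
    · exact Or.inl (hQ _ _ e h)
    · exact Or.inr ⟨S.transport hC e, fun v => ih _ _ (stabEquiv hC S e v) (hS v)⟩

theorem reachIn_succ {Q : GroupClass} : ∀ (n : ℕ) (G : Type) [Group G],
    ReachIn C Q n G → ReachIn C Q (n + 1) G := by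
  intro n
  induction n with
  | zero => intro G _ h; exact Or.inl h
  | succ n ih =>
    intro G _ h
    rcases h with h | ⟨S, hS⟩
    · exact Or.inl h
    · exact Or.inr ⟨S, fun v => ih _ (hS v)⟩

theorem reachIn_mono {Q : GroupClass} {n m : ℕ} (hnm : n ≤ m) (G : Type) [Group G]
    (h : ReachIn C Q n G) : ReachIn C Q m G := by
  induction hnm with
  | refl => exact h
  | step _ ih => exact reachIn_succ _ _ ih

theorem reachIn_imp {Q Q' : GroupClass} (hQ : ∀ (G : Type) [Group G], Q G → Q' G) :
    ∀ (n : ℕ) (G : Type) [Group G], ReachIn C Q n G → ReachIn C Q' n G := by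
  intro n
  induction n with
  | zero => intro G _ h; exact hQ _ h
  | succ n ih =>
    intro G _ h
    rcases h with h | ⟨S, hS⟩
    · exact Or.inl (hQ _ h)
    · exact Or.inr ⟨S, fun v => ih _ (hS v)⟩

/-- joining two processes -/
theorem reachIn_reachIn {Q : GroupClass} {m : ℕ} : ∀ (n : ℕ) (G : Type) [Group G],
    ReachIn C (fun G _ => ReachIn C Q m G) n G → ReachIn C Q (n + m) G := by
  intro n
  induction n with
  | zero => intro G _ h; rw [Nat.zero_add]; exact h
  | succ n ih =>
    intro G _ h
    rcases h with h | ⟨S, hS⟩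
    · exact reachIn_mono (by omega) _ h
    · have h1 : n + 1 + m = (n + m) + 1 := by ring
      rw [h1]
      exact Or.inr ⟨S, fun v => ih _ (hS v)⟩

end Pool.Agent.Helper21.SG
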