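import Mathlib

/-! Trees: the neighbour of `v` in the direction of `w`. -/

namespace Pool.Agent.Helper21.SG

open SimpleGraph

variable {V : Type} {T : SimpleGraph V}

/-- The second vertex of the path from `v` to `w` in a tree. -/
noncomputable def toward (hT : T.IsTree) (v w : V) : V :=
  (hT.existsUnique_path v w).choose.snd

theorem toward_eq (hT : T.IsTree) {v w : V} (p : T.Walk v w) (hp : p.IsPath) :
    toward hT v w = p.snd := by
  have h := (hT.existsUnique_path v w).choose_spec.2 p hp
  unfold toward
  rw [← h]

theorem adj_toward (hT : T.IsTree) {v w : V} (h : v ≠ w) : T.Adj v (toward hT v w) := by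
  obtain ⟨p, hp, -⟩ := hT.existsUnique_path v w
  rw [toward_eq hT p hp]
  exact p.adj_snd (fun hn => h hn.eq)

theorem toward_of_adj (hT : T.IsTree) {v u : V} (h : T.Adj v u) : toward hT v u = u := by
  have hp : (Walk.cons h Walk.nil).IsPath := by
    simp [Walk.cons_isPath_iff, h.ne]
  rw [toward_eq hT _ hp]
  rfl

theorem toward_eq_of_adj (hT : T.IsTree) {v x y : V} (h : T.Adj x y) (hx : v ≠ x) (hy : v ≠ y) :
    toward hT v x = toward hT v y := by
  classical
  obtain ⟨p, hp, -⟩ := hT.existsUnique_path v x
  obtain ⟨q, hq, -⟩ := hT.existsUnique_path v y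
  rw [toward_eq hT p hp, toward_eq hT q hq]
  have hpn : ¬ p.Nil := fun hn => hx hn.eq
  have hqn : ¬ q.Nil := fun hn => hy hn.eq
  by_cases hy' : y ∈ p.support
  · have := hT.isAcyclic.path_concat hq hp h.symm hy'
    rw [this]
    cases q with
    | nil => exact absurd Walk.Nil.nil hqn
    | cons h' q' => simp [Walk.concat_cons]
  · have hx' : x ∈ q.support :=
      hT.isAcyclic.mem_support_of_ne_mem_support_of_adj_of_isPath hq hp h.symm hy'
    have := hT.isAcyclic.path_concat hp hq h hx'
    rw [this]
    cases p with
    | nil => exact absurd Walk.Nil.nil hpn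
    | cons h' p' => simp [Walk.concat_cons]

theorem toward_map (hT : T.IsTree) (φ : T →g T) (hφ : Function.Injective φ) (v w : V) :
    toward hT (φ v) (φ w) = φ (toward hT v w) := by
  obtain ⟨p, hp, -⟩ := hT.existsUnique_path v w
  rw [toward_eq hT p hp, toward_eq hT (p.map φ) (hp.map hφ)]
  cases p with
  | nil => rfl
  | cons h q => simp

end Pool.Agent.Helper21.SG
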