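import Pool.Agent.Helper21.SG.A.Defs
import Pool.Agent.Helper21.SG.A.Tree

/-! The vertex groups of a splitting of a finitely generated group over finitely generated groups
are finitely generated. -/

namespace Pool.Agent.Helper21.SG

open SimpleGraph Function MulAction

variable {C : GroupClass} {G : Type} [Group G]

/-- the automorphism of the tree given by a group element -/
def Splitting.hom (S : Splitting C G) (g : G) : S.T →g S.T := ⟨fun x => g • x, fun h => S.adj g _ _ h⟩

theorem Splitting.toward_smul (S : Splitting C G) (g : G) (v w : S.V) :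
    toward S.tree (g • v) (g • w) = g • toward S.tree v w :=
  toward_map S.tree (S.hom g) (MulAction.injective g) v w

/-- finitely many orbits of neighbours -/
theorem Splitting.finite_rep (S : Splitting C G) (v : S.V) (rep : S.V → S.V)
    (hrep : ∀ (p : G) (u : S.V), p • v = v → rep (p • u) = rep u) :
    (rep '' {u | S.T.Adj v u}).Finite := by
  classical
  obtain ⟨F, hF, h⟩ := S.fin
  let θ : S.V × S.V → S.V := fun x =>
    if hx : ∃ u, S.T.Adj v u ∧ ∃ g : G, (g • v, g • u) = x then rep hx.choose else v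
  refine (hF.image θ).subset ?_
  rintro _ ⟨u, hu, rfl⟩
  obtain ⟨g, hg⟩ := h v u hu
  refine ⟨(g • v, g • u), hg, ?_⟩
  have hx : ∃ u', S.T.Adj v u' ∧ ∃ g' : G, (g' • v, g' • u') = (g • v, g • u) := ⟨u, hu, g, rfl⟩
  have h1 : θ (g • v, g • u) = rep hx.choose := dif_pos hx
  rw [h1]
  obtain ⟨-, g', hg'⟩ := hx.choose_spec
  rw [Prod.mk.injEq] at hg'
  have h2 : (g⁻¹ * g') • v = v := by rw [mul_smul, hg'.1, inv_smul_smul]
  have h3 : (g⁻¹ * g') • hx.choose = u := by rw [mul_smul, hg'.2, inv_smul_smul]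
  rw [← hrep (g⁻¹ * g') hx.choose h2, h3]

theorem stab_fg (hfg : ∀ (G : Type) [Group G], C G → Group.FG G) (S : Splitting C G)
    [hG : Group.FG G] (v : S.V) : Group.FG (stabilizer G v) := by
  classical
  set P : Subgroup G := stabilizer G v with hP
  have memP : ∀ g : G, g ∈ P ↔ g • v = v := fun g => mem_stabilizer_iff
  -- representatives of the orbits of `P`
  let rep : S.V → S.V := fun u => (Quotient.mk (orbitRel P S.V) u).out
  have hrep : ∀ (p : G) (u : S.V), p • v = v → rep (p • u) = rep u := by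
    intro p u hp
    have : (Quotient.mk (orbitRel P S.V) (p • u)) = Quotient.mk (orbitRel P S.V) u :=
      Quotient.sound ⟨⟨p, (memP p).2 hp⟩, rfl⟩
    show (Quotient.mk (orbitRel P S.V) (p • u)).out = (Quotient.mk (orbitRel P S.V) u).out
    rw [this]
  have hγ : ∀ u : S.V, ∃ p : G, p • v = v ∧ p • rep u = u := by
    intro u
    have h1 : (orbitRel P S.V).r u (rep u) :=
      Quotient.exact (Quotient.out_eq (Quotient.mk (orbitRel P S.V) u)).symm
    obtain ⟨p, hp⟩ := h1
    exact ⟨p.1, (memP _).1 p.2, hp⟩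
  choose γ hγv hγr using hγ
  have hfr := S.finite_rep v rep hrep
  have hadj : ∀ u, S.T.Adj v u → S.T.Adj v (rep u) := by
    intro u hu
    have h1 := S.adj (γ u)⁻¹ _ _ hu
    have h2 : (γ u)⁻¹ • v = v := by rw [inv_smul_eq_iff, hγv]
    have h3 : (γ u)⁻¹ • u = rep u := by rw [inv_smul_eq_iff, hγr]
    rwa [h2, h3] at h1
  -- translations
  have hτ : ∀ w : S.V, ∃ g : G, (∃ g' : G, g' • v = w) → g • v = w := by
    intro w
    by_cases hw : ∃ g' : G, g' • v = w
    · exact ⟨hw.choose, fun _ => hw.choose_spec⟩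
    · exact ⟨1, fun h => absurd h hw⟩
  choose τ hτ using hτ
  let c : S.V → S.V → G := fun w u => τ w * γ ((τ w)⁻¹ • u)
  have hcv : ∀ w u, (∃ g : G, g • v = w) → c w u • v = w := by
    intro w u hw
    show (τ w * γ ((τ w)⁻¹ • u)) • v = w
    rw [mul_smul, hγv, hτ w hw]
  -- generators of edge groups
  have hE : ∀ u, ∃ E : Set G, E.Finite ∧ (S.T.Adj v u →
      Subgroup.closure E = stabilizer G v ⊓ stabilizer G u) := by
    intro u
    by_cases hu : S.T.Adj v u
    · have h1 := hfg _ (S.edge v u hu)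
      rw [Group.fg_iff_subgroup_fg] at h1
      obtain ⟨E, hE⟩ := h1
      exact ⟨E, E.finite_toSet, fun _ => hE⟩
    · exact ⟨∅, Set.finite_empty, fun h => absurd h hu⟩
  choose E hEf hEc using hE
  -- generators of `G`
  obtain ⟨Sg, hSg, hSf⟩ := Group.fg_iff.1 hG
  have hwalk : ∀ s : G, ∃ p : S.T.Walk v (s • v), True := fun s => by
    obtain ⟨p⟩ := S.tree.connected v (s • v)
    exact ⟨p, trivial⟩
  choose p _ using hwalk
  let Sy : Set G := Sg ∪ Sg⁻¹
  have hSyf : Sy.Finite := hSf.union hSf.inv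
  let Z : Set S.V := ⋃ s ∈ Sy, {x | x ∈ (p s).support}
  have hZf : Z.Finite := hSyf.biUnion fun s _ => List.finite_toSet _
  -- the finite set generating the stabiliser
  let E1 : Set G := ⋃ r ∈ rep '' {u | S.T.Adj v u}, E r
  let E2 : Set G := (fun x : S.V × S.V × S.V => (c x.1 x.2.1)⁻¹ * c x.1 x.2.2) '' (Z ×ˢ Z ×ˢ Z)
  let E3 : Set G := (fun y => c v y) '' Z
  let E4 : Set G := (fun x : G × S.V => x.1⁻¹ * c (x.1 • v) x.2) '' (Sy ×ˢ Z)
  let EE : Set G := E1 ∪ (E2 ∩ {g | g • v = v}) ∪ E3 ∪ E4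
  have hEEf : EE.Finite := by
    refine Set.Finite.union (Set.Finite.union (Set.Finite.union ?_ ?_) ?_) ?_
    · exact hfr.biUnion fun r _ => hEf r
    · exact ((hZf.prod (hZf.prod hZf)).image _).inter_of_left _
    · exact hZf.image _
    · exact (hSyf.prod hZf).image _
  set K : Subgroup G := Subgroup.closure EE with hK
  have hKP : K ≤ P := by
    rw [hK, Subgroup.closure_le]
    rintro g (((hg | hg) | hg) | hg)
    · simp only [E1, Set.mem_iUnion] at hg
      obtain ⟨r, ⟨u, hu, rfl⟩, hg⟩ := hg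
      have h1 : g ∈ Subgroup.closure (E (rep u)) := Subgroup.subset_closure hg
      rw [hEc _ (hadj u hu)] at h1
      exact h1.1
    · exact (memP g).2 hg.2
    · obtain ⟨y, -, rfl⟩ := hg
      exact (memP _).2 (hcv v y ⟨1, one_smul _ _⟩)
    · obtain ⟨⟨s, y⟩, -, rfl⟩ := hg
      refine (memP _).2 ?_
      show (s⁻¹ * c (s • v) y) • v = v
      rw [mul_smul, hcv _ _ ⟨s, rfl⟩, inv_smul_smul]
  have hedge : ∀ u, S.T.Adj v u → stabilizer G v ⊓ stabilizer G (rep u) ≤ K := by
    intro u hu
    rw [← hEc _ (hadj u hu), hK]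
    refine Subgroup.closure_mono ?_
    intro g hg
    refine Or.inl (Or.inl (Or.inl ?_))
    simp only [E1, Set.mem_iUnion]
    exact ⟨rep u, ⟨u, hu, rfl⟩, hg⟩
  -- equivariance of the class function
  have hequiv : ∀ (g : G) (w u : S.V), (∃ g' : G, g' • v = w) → S.T.Adj w u →
      (c (g • w) (g • u))⁻¹ * (g * c w u) ∈ K := by
    intro g w u hw hu
    have hgw : ∃ g' : G, g' • v = g • w := by
      obtain ⟨g', rfl⟩ := hw
      exact ⟨g * g', mul_smul _ _ _⟩
    have hq : ((τ (g • w))⁻¹ * g * τ w) • v = v := by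
      rw [mul_smul, mul_smul, hτ w hw, inv_smul_eq_iff, hτ _ hgw]
    have hr : rep ((τ (g • w))⁻¹ • g • u) = rep ((τ w)⁻¹ • u) := by
      rw [← hrep _ ((τ w)⁻¹ • u) hq]
      congr 1
      rw [mul_smul, mul_smul, smul_inv_smul]
    have hn : S.T.Adj v ((τ w)⁻¹ • u) := by
      have := S.adj (τ w)⁻¹ _ _ hu
      have h2 : (τ w)⁻¹ • w = v := by rw [inv_smul_eq_iff, hτ w hw]
      rwa [h2] at this
    apply hedge _ hn
    have ha : c (g • w) (g • u) • rep ((τ w)⁻¹ • u) = g • u := by
      rw [← hr]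
      show (τ (g • w) * γ ((τ (g • w))⁻¹ • g • u)) • _ = _
      rw [mul_smul, hγr, smul_inv_smul]
    have hb : (g * c w u) • rep ((τ w)⁻¹ • u) = g • u := by
      show (g * (τ w * γ ((τ w)⁻¹ • u))) • _ = _
      rw [mul_smul, mul_smul, hγr, smul_inv_smul]
    refine ⟨?_, ?_⟩
    · show ((c (g • w) (g • u))⁻¹ * (g * c w u)) • v = v
      rw [mul_smul, mul_smul, hcv w u hw, inv_smul_eq_iff, hcv _ _ hgw]
    · show ((c (g • w) (g • u))⁻¹ * (g * c w u)) • _ = _
      rw [mul_smul, hb, inv_smul_eq_iff, ha]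
  -- the state
  let St : G → S.V → Prop := fun g x =>
    (g • x ≠ v → c v (toward S.tree v (g • x)) ∈ K) ∧ (g • x = v → ∀ y ∈ Z, g * c x y ∈ K)
  have hstep : ∀ (g : G) (x x' : S.V), S.T.Adj x x' → x ∈ Z → x' ∈ Z → St g x → St g x' := by
    intro g x x' hx hxZ hxZ' ⟨h1, h2⟩
    by_cases hgx : g • x = v
    · have hgx' : g • x' ≠ v := by
        intro h
        rw [← hgx] at h
        exact hx.ne (MulAction.injective g h).symm
      refine ⟨fun _ => ?_, fun h => absurd h hgx'⟩
      have hadj' : S.T.Adj v (g • x') := by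
        have := S.adj g _ _ hx
        rwa [hgx] at this
      rw [toward_of_adj S.tree hadj']
      have hxv : ∃ g' : G, g' • v = x := ⟨g⁻¹, by rw [inv_smul_eq_iff, hgx]⟩
      have h3 := hequiv g x x' hxv hx
      rw [hgx] at h3
      have h4 := h2 hgx x' hxZ'
      have h5 := K.mul_mem h4 (K.inv_mem h3)
      have h6 : g * c x x' * ((c v (g • x'))⁻¹ * (g * c x x'))⁻¹ = c v (g • x') := by group
      rwa [h6] at h5
    · by_cases hgx' : g • x' = v
      · refine ⟨fun h => absurd hgx' h, fun _ => ?_⟩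
        have hadj' : S.T.Adj v (g • x) := by
          have := S.adj g _ _ hx.symm
          rwa [hgx'] at this
        have h3 := h1 hgx
        rw [toward_of_adj S.tree hadj'] at h3
        have hxv : ∃ g' : G, g' • v = x' := ⟨g⁻¹, by rw [inv_smul_eq_iff, hgx']⟩
        have h4 := hequiv g x' x hxv hx.symm
        rw [hgx'] at h4
        have h5 : g * c x' x ∈ K := by
          have h6 := K.mul_mem h3 h4
          have h7 : c v (g • x) * ((c v (g • x))⁻¹ * (g * c x' x)) = g * c x' x := by group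
          rwa [h7] at h6
        intro y hy
        have h8 : (c x' x)⁻¹ * c x' y ∈ K := by
          refine Subgroup.subset_closure (Or.inl (Or.inl (Or.inr ⟨?_, ?_⟩)))
          · exact ⟨(x', x, y), ⟨hxZ', hxZ, hy⟩, rfl⟩
          · show ((c x' x)⁻¹ * c x' y) • v = v
            rw [mul_smul, hcv _ _ hxv, inv_smul_eq_iff, hcv _ _ hxv]
        have h9 := K.mul_mem h5 h8
        have h10 : g * c x' x * ((c x' x)⁻¹ * c x' y) = g * c x' y := by group
        rwa [h10] at h9
      · refine ⟨fun _ => ?_, fun h => absurd h hgx'⟩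
        have h3 := toward_eq_of_adj S.tree (v := v) (S.adj g _ _ hx) (Ne.symm hgx) (Ne.symm hgx')
        rw [← h3]
        exact h1 hgx
  have hwalkst : ∀ (g : G) (x z : S.V) (q : S.T.Walk x z), (∀ y ∈ q.support, y ∈ Z) →
      St g x → St g z := by
    intro g x z q
    induction q with
    | nil => intro _ h; exact h
    | cons hxy q ih =>
      intro hq hst
      refine ih (fun y hy => hq y (by simp [hy])) ?_
      refine hstep g _ _ hxy (hq _ (by simp)) (hq _ (by simp)) hst
  let Ψ : G → Prop := fun g => (g • v = v → g ∈ K) ∧ (g • v ≠ v → c v (toward S.tree v (g • v)) ∈ K)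
  have hmain : ∀ (g s : G), s ∈ Sy → Ψ g → Ψ (g * s) := by
    intro g s hs ⟨h1, h2⟩
    have hsup : ∀ y ∈ (p s).support, y ∈ Z := by
      intro y hy
      simp only [Z, Set.mem_iUnion]
      exact ⟨s, hs, hy⟩
    have h0 : St g v := by
      refine ⟨h2, fun hgv y hy => K.mul_mem (h1 hgv) ?_⟩
      exact Subgroup.subset_closure (Or.inl (Or.inr ⟨y, hy, rfl⟩))
    have h3 := hwalkst g v (s • v) (p s) hsup h0
    refine ⟨fun h => ?_, fun h => ?_⟩
    · rw [mul_smul] at h
      have hvZ : s • v ∈ Z := hsup _ (Walk.end_mem_support _)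
      have h4 := h3.2 h (s • v) hvZ
      have h5 : s⁻¹ * c (s • v) (s • v) ∈ K :=
        Subgroup.subset_closure (Or.inr ⟨(s, s • v), ⟨hs, hvZ⟩, rfl⟩)
      have h6 := K.mul_mem h4 (K.inv_mem h5)
      have h7 : g * c (s • v) (s • v) * (s⁻¹ * c (s • v) (s • v))⁻¹ = g * s := by group
      rwa [h7] at h6
    · rw [mul_smul] at h ⊢
      exact h3.1 h
  have hall : ∀ g : G, Ψ g := by
    intro g
    have hg : g ∈ Subgroup.closure Sg := by rw [hSg]; trivial
    induction hg using Subgroup.closure_induction_right with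
    | one => exact ⟨fun _ => K.one_mem, fun h => absurd (one_smul _ _) h⟩
    | mul_right x _ y hy ih => exact hmain x y (Or.inl hy) ih
    | mul_inv_cancel x _ y hy ih => exact hmain x y⁻¹ (Or.inr (by simpa using hy)) ih
  have hPK : P = K := le_antisymm (fun g hg => (hall g).1 ((memP g).1 hg)) hKP
  rw [hPK, Group.fg_iff_subgroup_fg]
  exact ⟨hEEf.toFinset, by rw [Set.Finite.coe_toFinset]⟩

end Pool.Agent.Helper21.SG
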