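import Pool.Agent.Helper21.SG.A.Elliptic
import Pool.Agent.Helper21.SG.A.VertexFG

/-! Passing a terminating process to a subgroup which meets non-splitting groups well. -/

namespace Pool.Agent.Helper21.SG

open SimpleGraph Function MulAction

variable {C : GroupClass} {G H : Type} [Group G] [Group H]

/-- Every finitely generated non-splitting subgroup is contained in the image of `f`, or meets it
in a group of `C`. -/
def Pure (C : GroupClass) {G H : Type} [Group G] [Group H] (f : H →* G) : Prop :=
  ∀ (L : Type) [Group L] (j : L →* G), Injective j → Group.FG L → ¬ Splits C L →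
    (∀ l, j l ∈ f.range) ∨ C ↥(f.range.comap j)

/-- The class of groups which do not split or are in `C`. -/
def Term (C : GroupClass) : GroupClass := fun G _ => ¬ Splits C G ∨ C G

theorem Term.isoClosed (hC : SubClosed C) : IsoClosed (Term C) := by
  intro H G _ _ e h
  rcases h with h | h
  · exact Or.inl (fun h' => h ((splits_iff hC e).1 h'))
  · exact Or.inr ((hC.iff e).2 h)

/-- A splitting of the ambient group and a subgroup (as an injective homomorphism). Either the
subgroup fixes a vertex, or it has a splitting with vertex groups mapping to vertex groups. -/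
theorem restrict_or (hC : SubClosed C) (hfg : ∀ (G : Type) [Group G], C G → Group.FG G)
    (S : Splitting C G) (f : H →* G) (hf : Injective f) [Group.FG H] :
    (∃ v : S.V, ∀ h, f h • v = v) ∨
    ∃ (S' : Splitting C H), ∀ x : S'.V, Group.FG (stabilizer H x) ∧ ∃ v : S.V,
      ∀ h : H, h ∈ stabilizer H x ↔ f h ∈ stabilizer G v := by
  by_cases hno : ∃ v : S.V, ∀ h, f h • v = v
  · exact Or.inl hno
  · right
    push Not at hno
    obtain ⟨S', ι, hι, hιs⟩ := exists_restrict hC S f hf hno
    refine ⟨S', fun x => ⟨stab_fg hfg S' x, ι x, fun h => ?_⟩⟩
    rw [mem_stabilizer_iff, mem_stabilizer_iff, ← hιs]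
    exact hι.eq_iff.symm

theorem pure_reach (hC : SubClosed C) (hfg : ∀ (G : Type) [Group G], C G → Group.FG G) :
    ∀ (n : ℕ) (G : Type) [Group G], Group.FG G → ReachIn C (Term C) n G →
    ∀ (H : Type) [Group H] (f : H →* G), Injective f → Group.FG H → Pure C f →
    ReachIn C (Term C) n H := by
  have base : ∀ (G : Type) [Group G], Group.FG G → Term C G →
      ∀ (H : Type) [Group H] (f : H →* G), Injective f → Group.FG H → Pure C f → Term C H := by
    intro G _ hG h H _ f hf hH hp
    rcases h with h | h
    · rcases hp G (MonoidHom.id G) injective_id hG h with h1 | h1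
      · left
        have hs : Surjective f := fun g => h1 g
        let e : H ≃* G := MulEquiv.ofBijective f ⟨hf, hs⟩
        exact fun h' => h ((splits_iff hC e).1 h')
      · right
        let k : H →* ↥(f.range.comap (MonoidHom.id G)) :=
          f.codRestrict _ (fun x => ⟨x, rfl⟩)
        refine hC _ _ k ?_ h1
        intro a b hab
        exact hf (congrArg Subtype.val hab)
    · exact Or.inr (hC _ _ f hf h)
  intro n
  induction n with
  | zero => intro G _ hG h H _ f hf hH hp; exact base G hG h H f hf hH hp
  | succ n ih =>
    intro G _ hG h H _ f hf hH hp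
    rcases h with h | ⟨S, hS⟩
    · exact Or.inl (base G hG h H f hf hH hp)
    · rcases restrict_or hC hfg S f hf with ⟨v, hv⟩ | ⟨S', hS'⟩
      · -- `H` fixes a vertex
        let f' : H →* stabilizer G v := f.codRestrict _ (fun x => hv x)
        have hf' : Injective f' := fun a b hab => hf (congrArg Subtype.val hab)
        refine reachIn_succ _ _ (ih _ (stab_fg hfg S v) (hS v) H f' hf' hH ?_)
        intro L _ j hj hL hLs
        have hj' : Injective ((stabilizer G v).subtype.comp j) :=
          (Subtype.val_injective).comp hj
        have hr : ∀ l : L, j l ∈ f'.range ↔ ((stabilizer G v).subtype.comp j) l ∈ f.range := by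
          intro l
          constructor
          · rintro ⟨h, hh⟩
            exact ⟨h, congrArg Subtype.val hh⟩
          · rintro ⟨h, hh⟩
            exact ⟨h, Subtype.ext hh⟩
        rcases hp L _ hj' hL hLs with h1 | h1
        · exact Or.inl (fun l => (hr l).2 (h1 l))
        · right
          have : f'.range.comap j = f.range.comap ((stabilizer G v).subtype.comp j) := by
            ext l; exact hr l
          rw [this]
          exact h1
      · -- `H` has no fixed vertex
        refine Or.inr ⟨S', fun x => ?_⟩
        obtain ⟨hx, v, hv⟩ := hS' x
        let f' : stabilizer H x →* stabilizer G v :=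
          (f.comp (stabilizer H x).subtype).codRestrict _ (fun y => (hv y.1).1 y.2)
        have hf' : Injective f' := by
          intro a b hab
          exact Subtype.ext (hf (congrArg Subtype.val hab))
        refine ih _ (stab_fg hfg S v) (hS v) _ f' hf' hx ?_
        intro L _ j hj hL hLs
        have hj' : Injective ((stabilizer G v).subtype.comp j) :=
          (Subtype.val_injective).comp hj
        have hr : ∀ l : L, j l ∈ f'.range ↔ ((stabilizer G v).subtype.comp j) l ∈ f.range := by
          intro l
          constructor
          · rintro ⟨h, hh⟩
            exact ⟨h.1, congrArg Subtype.val hh⟩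
          · rintro ⟨h, hh⟩
            have hh' : f h = (j l).1 := hh
            refine ⟨⟨h, (hv h).2 ?_⟩, Subtype.ext hh⟩
            rw [hh']
            exact (j l).2
        rcases hp L _ hj' hL hLs with h1 | h1
        · exact Or.inl (fun l => (hr l).2 (h1 l))
        · right
          have : f'.range.comap j = f.range.comap ((stabilizer G v).subtype.comp j) := by
            ext l; exact hr l
          rw [this]
          exact h1

/-- An element fixing two distinct vertices fixes the first edge of the path between them. -/
theorem fix_toward (S : Splitting C G) {v w : S.V} {g : G} (hv : g • v = v) (hw : g • w = w) :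
    g • toward S.tree v w = toward S.tree v w := by
  rw [← S.toward_smul, hv, hw]

/-- A subgroup fixing two distinct vertices is in `C`. -/
theorem two_fixed (hC : SubClosed C) (S : Splitting C G) (f : H →* G) (hf : Injective f)
    {v w : S.V} (hvw : v ≠ w) (hv : ∀ h, f h • v = v) (hw : ∀ h, f h • w = w) : C H := by
  have hadj := adj_toward S.tree hvw
  let k : H →* ↥(stabilizer G v ⊓ stabilizer G (toward S.tree v w)) :=
    f.codRestrict _ (fun h => ⟨hv h, fix_toward S (hv h) (hw h)⟩)
  refine hC _ _ k ?_ (S.edge _ _ hadj)
  intro a b hab
  exact hf (congrArg Subtype.val hab)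

theorem pure_stabilizer (hC : SubClosed C) (S : Splitting C G) (v : S.V) :
    Pure C (stabilizer G v).subtype := by
  intro L _ j hj hL hLs
  obtain ⟨w, hw⟩ := exists_fixed hC S j hj hLs
  rw [Subgroup.range_subtype]
  by_cases hvw : v = w
  · left
    intro l
    rw [hvw]
    exact hw l
  · right
    refine two_fixed hC S (j.comp (Subgroup.subtype _)) ?_ hvw (fun h => h.2) (fun h => hw _)
    exact hj.comp Subtype.val_injective

/-- **Vertex groups inherit strong accessibility**, with the same number of stages (up to groups
in `C`). -/
theorem reach_stabilizer (hC : SubClosed C) (hfg : ∀ (G : Type) [Group G], C G → Group.FG G)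
    [hG : Group.FG G] {n : ℕ} (h : ReachIn C (Term C) n G) (S : Splitting C G) (v : S.V) :
    ReachIn C (Term C) n (stabilizer G v) :=
  pure_reach hC hfg n G hG h _ _ (Subtype.val_injective) (stab_fg hfg S v) (pure_stabilizer hC S v)

end Pool.Agent.Helper21.SG
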