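import Pool.Agent.Helper21.SG.A.VertexFG

/-! A group acting on a tree without inversions with a finite orbit has a fixed vertex. -/

namespace Pool.Agent.Helper21.SG

open SimpleGraph Function MulAction

theorem dist_eq_length {V : Type} {T : SimpleGraph V} (hT : T.IsTree) {u v : V} (p : T.Walk u v)
    (hp : p.IsPath) : T.dist u v = p.length := by
  obtain ⟨q, hq, hq'⟩ := hT.connected.exists_path_of_dist u v
  obtain ⟨r, -, hr⟩ := hT.existsUnique_path u v
  rw [← hq', hr q hq, hr p hp]

theorem dist_toward {V : Type} {T : SimpleGraph V} (hT : T.IsTree) {x o : V} (h : x ≠ o) :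
    T.dist (toward hT x o) o + 1 = T.dist x o := by
  obtain ⟨p, hp, -⟩ := hT.existsUnique_path x o
  rw [toward_eq hT p hp, dist_eq_length hT p hp]
  cases p with
  | nil => exact absurd rfl h
  | cons h' q =>
    rw [Walk.snd_cons, Walk.length_cons, dist_eq_length hT q ((Walk.cons_isPath_iff _ _).1 hp).1]

theorem dist_add {V : Type} {T : SimpleGraph V} (hT : T.IsTree) {x x' o : V} (hx : x ≠ x')
    (ho : x ≠ o) (h : toward hT x x' ≠ toward hT x o) :
    T.dist x' o = T.dist x x' + T.dist x o := by
  obtain ⟨p, hp, -⟩ := hT.existsUnique_path x x'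
  obtain ⟨q, hq, -⟩ := hT.existsUnique_path x o
  rw [toward_eq hT p hp, toward_eq hT q hq] at h
  have hpath : (p.reverse.append q).IsPath := by
    rw [hT.isAcyclic.isPath_iff_isChain, Walk.edges_append, List.isChain_append]
    refine ⟨(hT.isAcyclic.isPath_iff_isChain _).1 hp.reverse,
      (hT.isAcyclic.isPath_iff_isChain _).1 hq, ?_⟩
    cases p with
    | nil => exact absurd rfl hx
    | cons h1 p =>
      cases q with
      | nil => exact absurd rfl ho
      | cons h2 q =>
        intro a ha b hb
        simp only [Walk.edges_reverse, Walk.edges_cons, List.getLast?_reverse, List.head?_cons,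
          Option.mem_def, Option.some.injEq] at ha hb
        rw [← ha, ← hb]
        intro hab
        apply h
        rw [Walk.snd_cons, Walk.snd_cons]
        simpa [Sym2.eq_iff, h1.ne, h2.ne, h1.ne', h2.ne'] using hab
  rw [dist_eq_length hT _ hpath, Walk.length_append, Walk.length_reverse, dist_eq_length hT p hp,
    dist_eq_length hT q hq]

theorem no_triangle {V : Type} {T : SimpleGraph V} (hT : T.IsTree) {x y z : V} (h1 : T.Adj x y)
    (h2 : T.Adj x z) (h3 : T.Adj y z) : False := by
  have := toward_eq_of_adj hT h3 h1.ne h2.ne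
  rw [toward_of_adj hT h1, toward_of_adj hT h2] at this
  exact h3.ne this

variable {C : GroupClass} {G : Type} [Group G]

theorem Splitting.dist_smul (S : Splitting C G) (g : G) (u v : S.V) :
    S.T.dist (g • u) (g • v) = S.T.dist u v := by
  obtain ⟨p, hp, -⟩ := S.tree.existsUnique_path u v
  have h2 : S.T.dist (S.hom g u) (S.hom g v) = (p.map (S.hom g)).length :=
    dist_eq_length S.tree _ (hp.map (MulAction.injective g))
  rw [Walk.length_map] at h2
  rw [dist_eq_length S.tree p hp]
  exact h2

theorem no_finite_orbit (S : Splitting C G) (v : S.V) :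
    ¬ (Set.range fun g : G => g • v).Finite := by
  classical
  intro hfin
  set O : Finset S.V := hfin.toFinset with hO
  have hmem : ∀ x, x ∈ O ↔ ∃ g : G, g • v = x := by
    intro x; simp [hO]
  have hinv : ∀ (g : G) x, x ∈ O → g • x ∈ O := by
    intro g x hx
    obtain ⟨g', rfl⟩ := (hmem _).1 hx
    exact (hmem _).2 ⟨g * g', mul_smul _ _ _⟩
  have hvO : v ∈ O := (hmem v).2 ⟨1, one_smul _ _⟩
  let r : S.V → ℕ := fun x => O.sup fun o => S.T.dist x o
  have hr : ∀ (g : G) x, r (g • x) ≤ r x := by
    intro g x
    refine Finset.sup_le fun o ho => ?_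
    have h1 : S.T.dist (g • x) o = S.T.dist x (g⁻¹ • o) := by
      rw [← S.dist_smul g x, smul_inv_smul]
    rw [h1]
    exact Finset.le_sup (f := fun o => S.T.dist x o) (hinv g⁻¹ o ho)
  have : Nonempty S.V := ⟨v⟩
  let x := Function.argmin r
  have hmin : ∀ y, r x ≤ r y := fun y => Function.argmin_le r y
  have hadj : ∀ y y', r y ≤ r x → r y' ≤ r x → y ≠ y' → S.T.Adj y y' := by
    intro y y' hy hy' hne
    by_contra hna
    have hpos : 0 < S.T.dist y y' := S.tree.connected.pos_dist_of_ne hne
    have hd : 2 ≤ S.T.dist y y' := by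
      by_contra hlt
      push Not at hlt
      have h1 : S.T.dist y y' = 1 := by omega
      exact hna (dist_eq_one_iff_adj.1 h1)
    have hlt : r (toward S.tree y y') < r x := by
      have hrx : 0 < r x := by
        by_contra h0
        push Not at h0
        have h1 : S.T.dist y v ≤ r y := Finset.le_sup (f := fun o => S.T.dist y o) hvO
        have h2 : S.T.dist y' v ≤ r y' := Finset.le_sup (f := fun o => S.T.dist y' o) hvO
        have h3 : S.T.dist y v = 0 := by omega
        have h4 : S.T.dist y' v = 0 := by omega
        rw [S.tree.connected.dist_eq_zero_iff] at h3 h4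
        exact hne (h3.trans h4.symm)
      rw [Finset.sup_lt_iff (by simpa using hrx)]
      intro o ho
      have hyo : S.T.dist y o ≤ r y := Finset.le_sup (f := fun o => S.T.dist y o) ho
      have hyo' : S.T.dist y' o ≤ r y' := Finset.le_sup (f := fun o => S.T.dist y' o) ho
      have hadjm := adj_toward S.tree hne
      have htri : S.T.dist (toward S.tree y y') o ≤ 1 + S.T.dist y o := by
        have h1 := S.tree.connected.dist_triangle (u := toward S.tree y y') (v := y) (w := o)
        have h2 : S.T.dist (toward S.tree y y') y = 1 := dist_eq_one_iff_adj.2 hadjm.symm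
        omega
      by_cases h0 : y = o
      · subst h0
        have h1 : S.T.dist y y = 0 := SimpleGraph.dist_self
        have h2 : S.T.dist y' y = S.T.dist y y' := SimpleGraph.dist_comm
        omega
      · by_cases h1 : toward S.tree y y' = toward S.tree y o
        · have h2 := dist_toward S.tree h0
          rw [← h1] at h2
          omega
        · have h2 := dist_add S.tree hne h0 h1
          omega
    exact absurd (hmin (toward S.tree y y')) (by omega)
  obtain ⟨g, hg⟩ := S.nofix x
  have h1 : S.T.Adj x (g • x) := hadj _ _ le_rfl (hr g x) (Ne.symm hg)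
  by_cases h2 : g • g • x = x
  · exact S.noinv g _ _ h1 ⟨rfl, h2⟩
  · have h3 : g • g • x ≠ g • x := fun h => hg (MulAction.injective g h)
    have h4 : S.T.Adj x (g • g • x) :=
      hadj _ _ le_rfl ((hr g _).trans (hr g x)) (Ne.symm h2)
    have h5 : S.T.Adj (g • x) (g • g • x) := S.adj g _ _ h1
    exact no_triangle S.tree h1 h4 h5

/-- Finite groups do not split. -/
theorem not_splits_of_finite [Finite G] : ¬ Splits C G := by
  rintro ⟨S⟩
  obtain ⟨v⟩ : Nonempty S.V := S.tree.connected.nonempty
  exact no_finite_orbit S v (Set.finite_range _)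

end Pool.Agent.Helper21.SG
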