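import Pool.Agent.Helper21.SG.A.Defs
import Pool.Agent.Helper21.SG.A.Tree

/-! Restriction of a splitting to a finitely generated subgroup without fixed vertex. -/

namespace Pool.Agent.Helper21.SG

open SimpleGraph Function

variable {C : GroupClass} {G H : Type} [Group G] [Group H]

/-- closed under injective pullback -/
def SubClosed (C : GroupClass) : Prop :=
  ∀ (H G : Type) [Group H] [Group G] (f : H →* G), Injective f → C G → C H

theorem exists_restrict (hC : SubClosed C) (S : Splitting C G) (f : H →* G) (hf : Injective f)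
    [hH : Group.FG H] (hno : ∀ v : S.V, ∃ h : H, f h • v ≠ v) :
    ∃ (S' : Splitting C H) (ι : S'.V → S.V), Injective ι ∧
      (∀ (h : H) (x : S'.V), ι (h • x) = f h • ι x) := by
  classical
  obtain ⟨F, hF, hFfin⟩ := Group.fg_iff.1 hH
  obtain ⟨v0⟩ : Nonempty S.V := S.tree.connected.nonempty
  have hwalk : ∀ s : H, ∃ p : S.T.Walk v0 (f s • v0), True := fun s => by
    obtain ⟨p⟩ := S.tree.connected v0 (f s • v0)
    exact ⟨p, trivial⟩
  choose p _ using hwalk
  let T1 : SimpleGraph S.V :=
    { Adj := fun u v => S.T.Adj u v ∧ ∃ h : H, ∃ s ∈ F, s(f h • u, f h • v) ∈ (p s).edges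
      symm := ⟨by
        rintro u v ⟨h1, h, s, hs, h2⟩
        refine ⟨h1.symm, h, s, hs, ?_⟩
        rwa [Sym2.eq_swap]⟩
      loopless := ⟨fun u hu => S.T.loopless.irrefl u hu.1⟩ }
  have hle : T1 ≤ S.T := fun u v h => h.1
  have hinv : ∀ (h : H) {u v : S.V}, T1.Adj u v → T1.Adj (f h • u) (f h • v) := by
    rintro h u v ⟨h1, k, s, hs, h2⟩
    refine ⟨S.adj _ _ _ h1, k * h⁻¹, s, hs, ?_⟩
    have : ∀ x : S.V, f (k * h⁻¹) • f h • x = f k • x := by
      intro x
      rw [smul_smul, ← map_mul]
      simp
    rw [this, this]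
    exact h2
  let φ : H → (T1 →g T1) := fun h => ⟨fun x => f h • x, fun hx => hinv h hx⟩
  have hreach : ∀ h : H, T1.Reachable v0 (f h • v0) := by
    have key : ∀ h ∈ Subgroup.closure F, T1.Reachable v0 (f h • v0) := by
      intro h hh
      induction hh using Subgroup.closure_induction with
      | mem s hs =>
        have : ∀ e ∈ (p s).edges, e ∈ T1.edgeSet := by
          intro e he
          induction e with | h a b =>
          refine ⟨(p s).adj_of_mem_edges he, 1, s, hs, ?_⟩
          simpa using he
        exact ⟨(p s).transfer T1 this⟩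
      | one => simp
      | mul a b _ _ ha hb =>
        have : T1.Reachable (f a • v0) (f a • f b • v0) := hb.map (φ a)
        rw [map_mul, mul_smul]
        exact ha.trans this
      | inv a _ ha =>
        have : T1.Reachable (f a⁻¹ • v0) (f a⁻¹ • f a • v0) := ha.map (φ a⁻¹)
        rw [smul_smul, ← map_mul, inv_mul_cancel, map_one, one_smul] at this
        exact this.symm
    intro h
    exact key h (by rw [hF]; trivial)
  let c := T1.connectedComponentMk v0
  have hmem : ∀ x : S.V, x ∈ c ↔ T1.Reachable v0 x := by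
    intro x
    constructor
    · intro hx
      have : T1.connectedComponentMk x = c := hx
      exact (ConnectedComponent.exact this).symm
    · intro hx
      exact ConnectedComponent.sound hx.symm
  have hstab : ∀ (h : H) (x : S.V), x ∈ c → f h • x ∈ c := by
    intro h x hx
    rw [hmem] at hx ⊢
    exact (hreach h).trans (hx.map (φ h))
  let act' : MulAction H c :=
    { smul := fun h x => ⟨f h • x.1, hstab h x.1 x.2⟩
      one_smul := fun x => Subtype.ext (by show f 1 • x.1 = x.1; simp)
      mul_smul := fun a b x => Subtype.ext (by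
        show f (a * b) • x.1 = f a • f b • x.1
        rw [map_mul, mul_smul]) }
  refine ⟨{ V := c, act := act', T := c.toSimpleGraph
            tree := (S.tree.isAcyclic.anti hle).isTree_connectedComponent c
            adj := ?_, noinv := ?_, fin := ?_, edge := ?_, nofix := ?_ },
          fun x => x.1, Subtype.val_injective, fun h x => rfl⟩
  · intro h u v huv
    exact hinv h huv
  · rintro h u v huv ⟨h1, h2⟩
    exact S.noinv (f h) u.1 v.1 (hle huv) ⟨congrArg Subtype.val h1, congrArg Subtype.val h2⟩
  · refine ⟨{x | ∃ s ∈ F, s(x.1.1, x.2.1) ∈ (p s).edges}, ?_, ?_⟩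
    · have h1 : ∀ s, {x : c × c | s(x.1.1, x.2.1) ∈ (p s).edges}.Finite := by
        intro s
        have hs : (((p s).support.toFinset : Finset S.V) : Set S.V).Finite := Finset.finite_toSet _
        have hs2 : {x : c | x.1 ∈ (((p s).support.toFinset : Finset S.V) : Set S.V)}.Finite :=
          hs.preimage Subtype.val_injective.injOn
        refine (hs2.prod hs2).subset ?_
        rintro ⟨x, y⟩ hxy
        have hxy' : s(x.1, y.1) ∈ (p s).edges := hxy
        refine ⟨?_, ?_⟩
        · simpa using (p s).fst_mem_support_of_mem_edges hxy'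
        · simpa using (p s).snd_mem_support_of_mem_edges hxy'
      have h2 : {x : c × c | ∃ s ∈ F, s(x.1.1, x.2.1) ∈ (p s).edges} =
          ⋃ s ∈ F, {x : c × c | s(x.1.1, x.2.1) ∈ (p s).edges} := by
        ext x; simp
      rw [h2]
      exact hFfin.biUnion fun s _ => h1 s
    · intro u v huv
      obtain ⟨h1, h, s, hs, h2⟩ : T1.Adj u.1 v.1 := huv
      exact ⟨h, s, hs, h2⟩
  · intro u v huv
    have h1 : S.T.Adj u.1 v.1 := hle huv
    let g : ↥(@MulAction.stabilizer H c _ act' u ⊓ @MulAction.stabilizer H c _ act' v) →*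
        ↥(MulAction.stabilizer G u.1 ⊓ MulAction.stabilizer G v.1) :=
      (f.comp (Subgroup.subtype _)).codRestrict _ (by
        rintro ⟨h, hh1, hh2⟩
        exact ⟨congrArg Subtype.val hh1, congrArg Subtype.val hh2⟩)
    refine hC _ _ g ?_ (S.edge _ _ h1)
    intro a b hab
    exact Subtype.ext (hf (congrArg Subtype.val hab))
  · intro v
    obtain ⟨h, hh⟩ := hno v.1
    exact ⟨h, fun h' => hh (congrArg Subtype.val h')⟩

end Pool.Agent.Helper21.SG
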