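import Pool.Agent.Helper21.SG.A.CanonDefs

/-! Runs of the process of iterated splittings, and iterated vertex groups. -/

namespace Pool.Agent.Helper21.SG

open MulAction

/-- The splitting `S` is over finite groups and the group is not virtually free, or some finite edge
group of `S` joins two infinite vertex groups. -/
def OverFinite {G : Type} [Group G] (S : Splitting FinVZ G) : Prop :=
  ((∀ u v, S.T.Adj u v → Finite ↥(stabilizer G u ⊓ stabilizer G v)) ∧ ¬ VFree G) ∨
    ∃ u v, S.T.Adj u v ∧ Finite ↥(stabilizer G u ⊓ stabilizer G v) ∧
      Infinite (stabilizer G u) ∧ Infinite (stabilizer G v)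

open Classical in
/-- A run of the process of iterated splittings from `G` in which `k` of the chosen splittings
satisfy `OverFinite`: either nothing is done with `G`, or a splitting `S` is chosen, and then there
are runs from the stabilisers of the vertices in a set `R` of representatives of the orbits of
vertices. -/
inductive Run : ∀ (G : Type) [Group G], ℕ → Prop
  | stop (G : Type) [Group G] : Run G 0
  | split (G : Type) [Group G] (S : Splitting FinVZ G) (R : Finset S.V) (κ : S.V → ℕ)
      (hR : ∀ v : S.V, ∃! r, r ∈ R ∧ ∃ g : G, g • v = r)
      (h : ∀ v ∈ R, Run (stabilizer G v) (κ v)) :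
      Run G ((∑ v ∈ R, κ v) + if OverFinite S then 1 else 0)

/-- `H` is an iterated vertex group of `G`. -/
inductive Below (G : Type) [Group G] : ∀ (H : Type) [Group H], Prop
  | refl : Below G G
  | step (H : Type) [Group H] (S : Splitting FinVZ H) (v : S.V) (h : Below G H) :
      Below G (stabilizer H v)

end Pool.Agent.Helper21.SG
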