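import Mathlib

/-! Square-summable functions on a group: translations and the trace property. -/

namespace Pool.Agent.Helper21.SG

open scoped InnerProductSpace

/-- square-summable real functions on `Γ` -/
abbrev V2 (Γ : Type) : Type := lp (fun _ : Γ => ℝ) 2

/-- finite families of square-summable functions -/
abbrev W2 (Γ ι : Type) : Type := PiLp 2 (fun _ : ι => V2 Γ)

section Pull

variable {Γ : Type}

theorem memℓp_comp (e : Γ ≃ Γ) (x : V2 Γ) : Memℓp (fun γ => x (e γ)) 2 := by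
  have h := lp.memℓp x
  rw [memℓp_gen_iff (by norm_num)] at h ⊢
  exact (e.summable_iff (f := fun γ => ‖x γ‖ ^ (2 : ENNReal).toReal)).2 h

/-- composition with a permutation -/
noncomputable def pull (e : Γ ≃ Γ) : V2 Γ →ₗᵢ[ℝ] V2 Γ where
  toFun x := ⟨fun γ => x (e γ), memℓp_comp e x⟩
  map_add' x y := by ext γ; rfl
  map_smul' c x := by ext γ; rfl
  norm_map' x := by
    rw [lp.norm_eq_tsum_rpow (by norm_num), lp.norm_eq_tsum_rpow (by norm_num)]
    congr 1
    exact e.tsum_eq (fun γ => ‖x γ‖ ^ (2 : ENNReal).toReal)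

@[simp] theorem pull_apply (e : Γ ≃ Γ) (x : V2 Γ) (γ : Γ) : pull e x γ = x (e γ) := rfl

end Pull

variable {Γ : Type} [Group Γ]

/-- left translation -/
noncomputable def lam (g : Γ) : V2 Γ →ₗᵢ[ℝ] V2 Γ := pull (Equiv.mulLeft g⁻¹)

/-- right translation -/
noncomputable def rho (g : Γ) : V2 Γ →ₗᵢ[ℝ] V2 Γ := pull (Equiv.mulRight g)

@[simp] theorem lam_apply (g : Γ) (x : V2 Γ) (γ : Γ) : lam g x γ = x (g⁻¹ * γ) := rfl

@[simp] theorem rho_apply (g : Γ) (x : V2 Γ) (γ : Γ) : rho g x γ = x (γ * g) := rfl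

theorem lam_mul (g h : Γ) (x : V2 Γ) : lam (g * h) x = lam g (lam h x) := by
  ext γ; simp [mul_assoc]

theorem lam_one (x : V2 Γ) : lam 1 x = x := by
  ext γ; simp

theorem rho_mul (g h : Γ) (x : V2 Γ) : rho (g * h) x = rho g (rho h x) := by
  ext γ; simp [mul_assoc]

theorem rho_one (x : V2 Γ) : rho 1 x = x := by
  ext γ; simp

theorem lam_rho (g h : Γ) (x : V2 Γ) : lam g (rho h x) = rho h (lam g x) := by
  ext γ; simp [mul_assoc]

/-- right translation on families -/
noncomputable def rhoW {ι : Type} [Fintype ι] (g : Γ) : W2 Γ ι →ₗ[ℝ] W2 Γ ι where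
  toFun x := WithLp.toLp 2 fun i => rho g (x i)
  map_add' x y := by ext i γ; simp
  map_smul' c x := by ext i γ; simp

@[simp] theorem rhoW_apply {ι : Type} [Fintype ι] (g : Γ) (x : W2 Γ ι) (i : ι) :
    rhoW g x i = rho g (x i) := rfl

end Pool.Agent.Helper21.SG
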