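import Pool.Agent.Helper21.SG.A.VN10
import Pool.Agent.Helper21.SG.A.Pure

/-! Edges towards the orbit of a base vertex. -/

set_option linter.unusedSectionVars false

namespace Pool.Agent.Helper21.SG

open SimpleGraph Function MulAction

variable {C : GroupClass} {H : Type} [Group H] {S : Splitting C H}

/-- the distance to the orbit of `o` -/
noncomputable def dO (o x : S.V) : ℕ := sInf (Set.range fun g : H => S.T.dist x (g • o))

theorem dO_spec (o x : S.V) : ∃ g : H, S.T.dist x (g • o) = dO o x := by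
  have h := Nat.sInf_mem (Set.range_nonempty fun g : H => S.T.dist x (g • o))
  exact h

theorem dO_le (o x : S.V) (g : H) : dO o x ≤ S.T.dist x (g • o) := Nat.sInf_le ⟨g, rfl⟩

theorem dO_smul_le (o x : S.V) (h : H) : dO o (h • x) ≤ dO o x := by
  obtain ⟨g, hg⟩ := dO_spec (S := S) o x
  have h1 := dO_le (S := S) o (h • x) (h * g)
  rw [mul_smul, S.dist_smul, hg] at h1
  exact h1

theorem dO_smul (o x : S.V) (h : H) : dO o (h • x) = dO o x := by
  refine le_antisymm (dO_smul_le o x h) ?_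
  have h1 := dO_smul_le (S := S) o (h • x) h⁻¹
  rwa [inv_smul_smul] at h1

theorem dO_adj {o x y : S.V} (h : S.T.Adj x y) : dO o x ≤ dO o y + 1 := by
  obtain ⟨g, hg⟩ := dO_spec (S := S) o y
  have h1 := dO_le (S := S) o x g
  have h2 := S.tree.connected.dist_triangle (u := x) (v := y) (w := g • o)
  have h3 : S.T.dist x y = 1 := dist_eq_one_iff_adj.2 h
  omega

theorem dO_eq_zero {o x : S.V} (h : dO o x = 0) : ∃ g : H, g • o = x := by
  obtain ⟨g, hg⟩ := dO_spec (S := S) o x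
  rw [h] at hg
  exact ⟨g, (S.tree.connected.dist_eq_zero_iff.1 hg).symm⟩

theorem dO_self (o : S.V) : dO o o = 0 := by
  have h := dO_le (S := S) o o 1
  rw [one_smul, SimpleGraph.dist_self] at h
  omega

theorem exists_up {o x : S.V} (h : dO o x ≠ 0) : ∃ y, S.T.Adj x y ∧ dO o y + 1 = dO o x := by
  obtain ⟨g, hg⟩ := dO_spec (S := S) o x
  have hne : x ≠ g • o := by
    rintro h1
    rw [← h1, SimpleGraph.dist_self] at hg
    exact h hg.symm
  have h1 := dist_toward S.tree hne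
  have h2 := adj_toward S.tree hne
  refine ⟨toward S.tree x (g • o), h2, ?_⟩
  have h3 := dO_le (S := S) o (toward S.tree x (g • o)) g
  have h4 := dO_adj (o := o) h2
  omega

theorem Splitting.exists_adj (S : Splitting C H) : ∃ u v, S.T.Adj u v := by
  obtain ⟨v⟩ := S.tree.connected.nonempty
  obtain ⟨g, hg⟩ := S.nofix v
  exact ⟨_, _, adj_toward S.tree (Ne.symm hg)⟩

variable (F : Frame S)

/-- `q` is the class of the edge from the representative `r` to `y` -/
def IsEdge (r : F.R) (y : S.V) (q : F.Q) (g : H) : Prop :=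
  (g • F.vx q = F.vr r ∧ g • F.vy q = y) ∨ (g • F.vx q = y ∧ g • F.vy q = F.vr r)

/-- Each representative except the base has its own edge towards the orbit of the base. -/
theorem exists_theta (r0 : F.R) : ∃ (θ : F.R → F.Q) (y : F.R → S.V) (g : F.R → H),
    (∀ r, r ≠ r0 → S.T.Adj (F.vr r) (y r) ∧ dO (F.vr r0) (y r) + 1 = dO (F.vr r0) (F.vr r) ∧
      IsEdge F r (y r) (θ r) (g r)) ∧
    ∀ r r', r ≠ r0 → r' ≠ r0 → θ r = θ r' → r = r' := by
  have h : ∀ r : F.R, ∃ (q : F.Q) (y : S.V) (g : H), r ≠ r0 → S.T.Adj (F.vr r) y ∧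
      dO (F.vr r0) y + 1 = dO (F.vr r0) (F.vr r) ∧ IsEdge F r y q g := by
    intro r
    by_cases hr : r = r0
    · obtain ⟨u, v, huv⟩ := S.exists_adj
      obtain ⟨q, -⟩ := F.ex u v huv
      exact ⟨q, u, 1, fun h => absurd hr h⟩
    · have h1 : dO (F.vr r0) (F.vr r) ≠ 0 := by
        intro h0
        obtain ⟨g, hg⟩ := dO_eq_zero h0
        apply hr
        rw [← F.cl_vr r, ← hg, F.cl_smul, F.cl_vr]
      obtain ⟨y, hy, hy'⟩ := exists_up h1
      obtain ⟨q, g, hg⟩ := F.ex _ _ hy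
      exact ⟨q, y, g, fun _ => ⟨hy, hy', hg⟩⟩
  choose θ y g hθ using h
  refine ⟨θ, y, g, hθ, fun r r' hr hr' hq => ?_⟩
  obtain ⟨-, h2, h3⟩ := hθ r hr
  obtain ⟨-, h5, h6⟩ := hθ r' hr'
  rw [← hq] at h6
  have key : ∀ {a b a' b' : S.V}, g r • a = b → g r' • a = b' →
      dO (F.vr r0) b = dO (F.vr r0) b' ∧ F.cl b = F.cl b' := by
    intro a b a' b' h7 h8
    rw [← h7, ← h8, dO_smul, dO_smul, F.cl_smul, F.cl_smul]
    exact ⟨rfl, rfl⟩
  rcases h3 with ⟨h7, h8⟩ | ⟨h7, h8⟩ <;> rcases h6 with ⟨h9, h10⟩ | ⟨h9, h10⟩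
  · have h11 := (key (a' := F.vr r0) h7 h9).2
    rwa [F.cl_vr, F.cl_vr] at h11
  · have h11 := (key (a' := F.vr r0) h7 h9).1
    have h12 := (key (a' := F.vr r0) h8 h10).1
    omega
  · have h11 := (key (a' := F.vr r0) h7 h9).1
    have h12 := (key (a' := F.vr r0) h8 h10).1
    omega
  · have h11 := (key (a' := F.vr r0) h8 h10).2
    rwa [F.cl_vr, F.cl_vr] at h11

/-- the conjugation of the edge group into the vertex group -/
theorem exists_conj {r : F.R} {y : S.V} {q : F.Q} {g : H} (h : IsEdge F r y q g) :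
    ∃ φ : ↥(stabilizer H (F.vx q) ⊓ stabilizer H (F.vy q)) →* stabilizer H (F.vr r),
      Injective φ ∧ ∀ k, (φ k).1 = g * k.1 * g⁻¹ ∧ (φ k).1 • y = y := by
  have h1 : ∀ (k : ↥(stabilizer H (F.vx q) ⊓ stabilizer H (F.vy q))),
      (g * k.1 * g⁻¹) • g • F.vx q = g • F.vx q ∧ (g * k.1 * g⁻¹) • g • F.vy q = g • F.vy q := by
    intro k
    have h2 : k.1 • F.vx q = F.vx q := k.2.1
    have h3 : k.1 • F.vy q = F.vy q := k.2.2
    constructor
    · rw [← mul_smul, inv_mul_cancel_right, mul_smul, h2]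
    · rw [← mul_smul, inv_mul_cancel_right, mul_smul, h3]
  have h2 : ∀ (k : ↥(stabilizer H (F.vx q) ⊓ stabilizer H (F.vy q))),
      (g * k.1 * g⁻¹) • F.vr r = F.vr r ∧ (g * k.1 * g⁻¹) • y = y := by
    intro k
    rcases h with ⟨h3, h4⟩ | ⟨h3, h4⟩
    · have h5 := h1 k
      rwa [h3, h4] at h5
    · have h5 := h1 k
      rw [h3, h4] at h5
      exact ⟨h5.2, h5.1⟩
  refine ⟨((MulAut.conj g).toMonoidHom.comp (Subgroup.subtype _)).codRestrict _
    (fun k => (h2 k).1), ?_, fun k => ⟨rfl, (h2 k).2⟩⟩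
  intro a b hab
  have h3 : (MulAut.conj g) a.1 = (MulAut.conj g) b.1 := congrArg Subtype.val hab
  exact Subtype.ext ((MulAut.conj g).injective h3)

/-- If every edge is the edge of a representative whose vertex group fixes it then there is a
fixed vertex. -/
theorem no_full {r0 : F.R} {θ : F.R → F.Q} {y : F.R → S.V} {g : F.R → H}
    (hθ : ∀ r, r ≠ r0 → S.T.Adj (F.vr r) (y r) ∧ dO (F.vr r0) (y r) + 1 = dO (F.vr r0) (F.vr r) ∧
      IsEdge F r (y r) (θ r) (g r))
    (hall : ∀ q, ∃ r, r ≠ r0 ∧ θ r = q ∧ ∀ h : H, h • F.vr r = F.vr r → h • y r = y r) : False := by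
  set o := F.vr r0 with ho
  -- every edge has an upper and a lower end
  have h1 : ∀ u v, S.T.Adj u v → ∃ r, ∃ h : H, r ≠ r0 ∧
      (∀ h : H, h • F.vr r = F.vr r → h • y r = y r) ∧
      ((h • F.vr r = u ∧ h • y r = v) ∨ (h • F.vr r = v ∧ h • y r = u)) := by
    intro u v huv
    obtain ⟨q, k, hk⟩ := F.ex u v huv
    obtain ⟨r, hr, rfl, hfix⟩ := hall q
    obtain ⟨-, -, hE⟩ := hθ r hr
    refine ⟨r, k * (g r)⁻¹, hr, hfix, ?_⟩
    rw [mul_smul, mul_smul]
    rcases hE with ⟨h3, h4⟩ | ⟨h3, h4⟩ <;> rw [← h3, ← h4, inv_smul_smul, inv_smul_smul]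
    · exact hk
    · rcases hk with ⟨h5, h6⟩ | ⟨h5, h6⟩
      · exact Or.inr ⟨h6, h5⟩
      · exact Or.inl ⟨h6, h5⟩
  have h2 : ∀ u v, S.T.Adj u v → dO o v + 1 = dO o u → ∃ r, ∃ h : H, r ≠ r0 ∧
      (∀ h : H, h • F.vr r = F.vr r → h • y r = y r) ∧ h • F.vr r = u ∧ h • y r = v := by
    intro u v huv hd
    obtain ⟨r, h, hr, hfix, ⟨h3, h4⟩ | ⟨h3, h4⟩⟩ := h1 u v huv
    · exact ⟨r, h, hr, hfix, h3, h4⟩
    · exfalso
      have h5 := (hθ r hr).2.1
      rw [← h3, ← h4, dO_smul, dO_smul] at hd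
      omega
  have h3 : ∀ u v, S.T.Adj u v → dO o v + 1 = dO o u ∨ dO o u + 1 = dO o v := by
    intro u v huv
    obtain ⟨r, h, hr, -, ⟨h3, h4⟩ | ⟨h3, h4⟩⟩ := h1 u v huv
    · left
      rw [← h3, ← h4, dO_smul, dO_smul]
      exact (hθ r hr).2.1
    · right
      rw [← h3, ← h4, dO_smul, dO_smul]
      exact (hθ r hr).2.1
  have h4 : ∀ u v v', S.T.Adj u v → S.T.Adj u v' → dO o v + 1 = dO o u →
      dO o v' + 1 = dO o u → v = v' := by
    intro u v v' hv hv' hd hd'
    obtain ⟨r, h, -, hfix, h5, h6⟩ := h2 u v hv hd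
    obtain ⟨r', h', -, -, h7, h8⟩ := h2 u v' hv' hd'
    have h9 : r = r' := by
      rw [← F.cl_vr r, ← F.cl_vr r', ← F.cl_smul h, h5, ← h7, F.cl_smul]
    subst h9
    have h10 : (h⁻¹ * h') • F.vr r = F.vr r := by rw [mul_smul, h7, ← h5, inv_smul_smul]
    have h11 := hfix _ h10
    rw [mul_smul, inv_smul_eq_iff] at h11
    rw [← h6, ← h8, h11]
  -- the nearest points of the orbit
  let N : S.V → Set S.V := fun z => {p | (∃ g : H, g • o = p) ∧ S.T.dist z p = dO o z}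
  have h5 : ∀ z z', S.T.Adj z z' → dO o z' + 1 = dO o z → N z = N z' := by
    intro z z' hz hd
    ext p
    constructor
    · rintro ⟨⟨k, rfl⟩, hp⟩
      refine ⟨⟨k, rfl⟩, ?_⟩
      have hne : z ≠ k • o := by
        intro h6
        rw [← h6, SimpleGraph.dist_self] at hp
        omega
      have h6 := dist_toward S.tree hne
      have h7 := adj_toward S.tree hne
      have h8 := dO_le (S := S) o (toward S.tree z (k • o)) k
      have h9 := dO_adj (o := o) h7
      have h10 := h4 z _ z' h7 hz (by omega) hd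
      rw [h10] at h6
      omega
    · rintro ⟨⟨k, rfl⟩, hp⟩
      refine ⟨⟨k, rfl⟩, ?_⟩
      have h6 := S.tree.connected.dist_triangle (u := z) (v := z') (w := k • o)
      have h7 : S.T.dist z z' = 1 := dist_eq_one_iff_adj.2 hz
      have h8 := dO_le (S := S) o z k
      omega
  have h6 : ∀ z z', N z = N z' := by
    intro z z'
    obtain ⟨p⟩ := S.tree.connected z z'
    induction p with
    | nil => rfl
    | cons h p ih =>
      rw [← ih]
      rcases h3 _ _ h with h7 | h7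
      · exact h5 _ _ h h7
      · exact (h5 _ _ h.symm h7).symm
  obtain ⟨k, hk⟩ := S.nofix o
  apply hk
  have h7 : k • o ∈ N (k • o) := ⟨⟨k, rfl⟩, by rw [SimpleGraph.dist_self, dO_smul, dO_self]⟩
  rw [h6 (k • o) o] at h7
  have h8 := h7.2
  rw [dO_self] at h8
  exact (S.tree.connected.dist_eq_zero_iff.1 h8).symm

end Pool.Agent.Helper21.SG
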