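import Pool.Agent.Helper21.SG.A.VN11
import Pool.Agent.Helper21.SG.A.RunDefs

/-! The weight of a group and its decrease in a splitting. -/

set_option linter.unusedSectionVars false

namespace Pool.Agent.Helper21.SG

open SimpleGraph Function MulAction

variable {Γ : Type} [Group Γ] {H : Type} [Group H]

open Classical in
/-- the weight: the cocycle dimension minus one for infinite groups -/
noncomputable def wt (f : H →* Γ) : ℝ := if Finite H then 0 else del f - 1

theorem wt_nonneg [Group.FG H] {f : H →* Γ} (hf : Injective f) : 0 ≤ wt f := by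
  unfold wt
  split_ifs with h
  · exact le_rfl
  · have : Infinite H := not_finite_iff_infinite.1 h
    have := one_le_del hf
    linarith

theorem card_le_bound {B : ℕ} (hB : ∀ K : Subgroup Γ, Finite K → Nat.card K ≤ B) [Finite H]
    {f : H →* Γ} (hf : Injective f) : Nat.card H ≤ B := by
  have e : H ≃ f.range := (MonoidHom.ofInjective hf).toEquiv
  have := Finite.of_equiv H e
  rw [Nat.card_congr e]
  exact hB f.range this

theorem del_of_finite' [Finite H] {f : H →* Γ} (hf : Injective f) :
    del f = 1 - (Nat.card H : ℝ)⁻¹ := by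
  have := Fintype.ofFinite H
  rw [del_of_finite hf, Nat.card_eq_fintype_card]

theorem inv_card_ge {B : ℕ} (hB : ∀ K : Subgroup Γ, Finite K → Nat.card K ≤ B) [Finite H]
    {f : H →* Γ} (hf : Injective f) : (B : ℝ)⁻¹ ≤ (Nat.card H : ℝ)⁻¹ := by
  have h1 := card_le_bound hB hf
  have h2 : 0 < Nat.card H := Nat.card_pos
  have h3 : (0 : ℝ) < Nat.card H := by exact_mod_cast h2
  have h4 : (Nat.card H : ℝ) ≤ B := by exact_mod_cast h1
  exact inv_anti₀ h3 h4

theorem comp_subtype_inj {f : H →* Γ} (hf : Injective f) (K : Subgroup H) :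
    Injective (f.comp K.subtype) := hf.comp Subtype.val_injective

/-- Conjugate stabilisers. -/
theorem finite_stab_smul {S : Splitting FinVZ H} {u v : S.V} {g : H} (h : g • u = v)
    (hu : Finite (stabilizer H u)) : Finite (stabilizer H v) := by
  have e : stabilizer H u ≃* stabilizer H v := stabilizerEquivStabilizer h.symm
  exact Finite.of_equiv _ e.toEquiv

/-- The decrease of the weight. -/
theorem wt_ineq [Group.FG H] (S : Splitting FinVZ H) {f : H →* Γ} (hf : Injective f) {B : ℕ}
    (hB : ∀ K : Subgroup Γ, Finite K → Nat.card K ≤ B) (R : Finset S.V)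
    (hR : ∀ v : S.V, ∃! r, r ∈ R ∧ ∃ g : H, g • v = r) [Decidable (OverFinite S)] :
    ∑ v ∈ R, wt (f.comp (stabilizer H v).subtype) + (if OverFinite S then (B : ℝ)⁻¹ else 0) ≤
      wt f := by
  classical
  have hinf : Infinite H := by
    by_contra h
    have : Finite H := not_infinite_iff_finite.1 h
    exact not_splits_of_finite ⟨S⟩
  have hfg : ∀ v : S.V, Group.FG (stabilizer H v) := fun v => stab_fg fg_finVZ S v
  have hw : wt f = del f - 1 := if_neg (by simpa using hinf)
  rw [hw]
  by_cases hall : ∀ v : S.V, Finite (stabilizer H v)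
  · have h1 : ∀ v ∈ R, wt (f.comp (stabilizer H v).subtype) = 0 := fun v _ => if_pos (hall v)
    have h2 : ¬ OverFinite S := by
      rintro (⟨h3, h4⟩ | ⟨u, v, -, -, h5, -⟩)
      · apply h4
        refine Or.inr ⟨{ S with edge := h3 }, hall⟩
      · have := hall u
        exact not_finite (stabilizer H u)
    rw [Finset.sum_eq_zero h1, if_neg h2]
    have h3 := one_le_del hf
    linarith
  · push Not at hall
    obtain ⟨v0, hv0⟩ := hall
    obtain ⟨F, e, he⟩ := exists_frame S R hR
    -- the base
    obtain ⟨r0, hr0⟩ : ∃ r0 : F.R, Infinite (stabilizer H (F.vr r0)) := by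
      refine ⟨F.cl v0, ?_⟩
      by_contra h
      have h1 : Finite (stabilizer H (F.vr (F.cl v0))) := not_infinite_iff_finite.1 h
      have := finite_stab_smul (F.gam_smul v0) h1
      exact not_finite (stabilizer H v0)
    have hsum : ∑ v ∈ R, wt (f.comp (stabilizer H v).subtype) =
        ∑ r : F.R, wt (f.comp (stabilizer H (F.vr r)).subtype) := by
      rw [← Finset.sum_coe_sort R]
      rw [← e.sum_comp]
      refine Finset.sum_congr rfl fun r _ => ?_
      rw [he]
    rw [hsum]
    have hFQ : ∀ q, FinVZ ↥(stabilizer H (F.vx q) ⊓ stabilizer H (F.vy q)) :=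
      fun q => S.edge _ _ (F.adj q)
    have htree := tree_ineq F f (fun r => hfg _) (fun q => fg_finVZ _ (hFQ q)) r0
    set X : F.R → ℝ := fun r => 1 - del (f.comp (stabilizer H (F.vr r)).subtype) with hX
    set Y : F.Q → ℝ :=
      fun q => 1 - del (f.comp (stabilizer H (F.vx q) ⊓ stabilizer H (F.vy q)).subtype) with hY
    have hY0 : ∀ q, 0 ≤ Y q := fun q => by
      have := del_finVZ (comp_subtype_inj hf (stabilizer H (F.vx q) ⊓ stabilizer H (F.vy q))) (hFQ q)
      simp only [hY]
      linarith
    have hXf : ∀ r, Finite (stabilizer H (F.vr r)) →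
        X r = (Nat.card (stabilizer H (F.vr r)) : ℝ)⁻¹ := by
      intro r hr
      simp only [hX]
      rw [del_of_finite' (comp_subtype_inj hf _)]
      ring
    have hYf : ∀ q, Finite ↥(stabilizer H (F.vx q) ⊓ stabilizer H (F.vy q)) →
        Y q = (Nat.card ↥(stabilizer H (F.vx q) ⊓ stabilizer H (F.vy q)) : ℝ)⁻¹ := by
      intro q hq
      simp only [hY]
      rw [del_of_finite' (comp_subtype_inj hf _)]
      ring
    set Rf : Finset F.R := Finset.univ.filter fun r => Finite (stabilizer H (F.vr r)) with hRf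
    have hmem : ∀ r, r ∈ Rf ↔ Finite (stabilizer H (F.vr r)) := fun r => by simp [hRf]
    have hne : ∀ r ∈ Rf, r ≠ r0 := by
      rintro r hr rfl
      have := (hmem r).1 hr
      exact not_finite (stabilizer H (F.vr r))
    have hwX : ∑ r : F.R, wt (f.comp (stabilizer H (F.vr r)).subtype) =
        ∑ r ∈ Rf, X r - ∑ r, X r := by
      have h1 : ∑ r ∈ Rf, X r = ∑ r, if Finite (stabilizer H (F.vr r)) then X r else 0 := by
        rw [hRf, Finset.sum_filter]
      rw [h1, ← Finset.sum_sub_distrib]
      refine Finset.sum_congr rfl fun r _ => ?_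
      unfold wt
      split_ifs with h2
      · ring
      · simp only [hX]
        ring
    have hsX : ∑ r, X r = Fintype.card F.R -
        ∑ r, del (f.comp (stabilizer H (F.vr r)).subtype) := by
      simp only [hX]
      rw [Finset.sum_sub_distrib]
      simp
    have hsY : ∑ q, Y q = Fintype.card F.Q -
        ∑ q, del (f.comp (stabilizer H (F.vx q) ⊓ stabilizer H (F.vy q)).subtype) := by
      simp only [hY]
      rw [Finset.sum_sub_distrib]
      simp
    -- it remains to estimate the edges against the finite vertex groups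
    suffices hmain : (if OverFinite S then (B : ℝ)⁻¹ else 0) ≤ ∑ q, Y q - ∑ r ∈ Rf, X r by
      linarith
    obtain ⟨θ, y, g, hθ, hinj⟩ := exists_theta F r0
    have hsplit : ∑ q, Y q - ∑ r ∈ Rf, X r =
        ∑ r ∈ Rf, (Y (θ r) - X r) + ∑ q ∈ (Rf.image θ)ᶜ, Y q := by
      have h9 : ∑ r ∈ Rf, (Y (θ r) - X r) = ∑ r ∈ Rf, Y (θ r) - ∑ r ∈ Rf, X r :=
        Finset.sum_sub_distrib (fun r => Y (θ r)) X
      rw [h9, ← Finset.sum_add_sum_compl (Rf.image θ), Finset.sum_image]
      · ring
      · intro r hr r' hr' h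
        exact hinj r r' (hne r hr) (hne r' hr') h
    rw [hsplit]
    have hcard : ∀ r ∈ Rf, Finite ↥(stabilizer H (F.vx (θ r)) ⊓ stabilizer H (F.vy (θ r))) ∧
        (0 : ℝ) < Nat.card ↥(stabilizer H (F.vx (θ r)) ⊓ stabilizer H (F.vy (θ r))) ∧
        Nat.card ↥(stabilizer H (F.vx (θ r)) ⊓ stabilizer H (F.vy (θ r))) ∣
          Nat.card (stabilizer H (F.vr r)) ∧
        (Nat.card ↥(stabilizer H (F.vx (θ r)) ⊓ stabilizer H (F.vy (θ r))) =
          Nat.card (stabilizer H (F.vr r)) → ∀ h : H, h • F.vr r = F.vr r → h • y r = y r) := by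
      intro r hr
      have hfin := (hmem r).1 hr
      obtain ⟨φ, hφ, hφ'⟩ := exists_conj F (hθ r (hne r hr)).2.2
      have hK := Finite.of_injective φ hφ
      have hpos : 0 < Nat.card ↥(stabilizer H (F.vx (θ r)) ⊓ stabilizer H (F.vy (θ r))) :=
        Nat.card_pos
      refine ⟨hK, by exact_mod_cast hpos, Subgroup.card_dvd_of_injective φ hφ, ?_⟩
      intro hc h hh
      have hbij : Bijective φ := (Nat.bijective_iff_injective_and_card φ).2 ⟨hφ, hc⟩
      obtain ⟨k, hk⟩ := hbij.2 ⟨h, hh⟩
      have h1 := (hφ' k).2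
      rw [hk] at h1
      exact h1
    have hterm : ∀ r ∈ Rf, 0 ≤ Y (θ r) - X r := by
      intro r hr
      have hfin := (hmem r).1 hr
      obtain ⟨h1, h2, h3, -⟩ := hcard r hr
      rw [hXf r hfin, hYf _ h1]
      have h4 := Nat.le_of_dvd Nat.card_pos h3
      have h5 : (Nat.card ↥(stabilizer H (F.vx (θ r)) ⊓ stabilizer H (F.vy (θ r))) : ℝ) ≤
          Nat.card (stabilizer H (F.vr r)) := by exact_mod_cast h4
      have h6 := inv_anti₀ h2 h5
      linarith
    have hs1 : 0 ≤ ∑ r ∈ Rf, (Y (θ r) - X r) := Finset.sum_nonneg hterm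
    have hs2 : 0 ≤ ∑ q ∈ (Rf.image θ)ᶜ, Y q := Finset.sum_nonneg fun q _ => hY0 q
    have key1 : (∃ q, q ∉ Rf.image θ ∧
        Finite ↥(stabilizer H (F.vx q) ⊓ stabilizer H (F.vy q))) →
        (B : ℝ)⁻¹ ≤ ∑ r ∈ Rf, (Y (θ r) - X r) + ∑ q ∈ (Rf.image θ)ᶜ, Y q := by
      rintro ⟨q, hq, hqf⟩
      have h1 : Y q ≤ ∑ q ∈ (Rf.image θ)ᶜ, Y q :=
        Finset.single_le_sum (f := Y) (fun q _ => hY0 q) (Finset.mem_compl.2 hq)
      have h2 := inv_card_ge hB
        (comp_subtype_inj hf (stabilizer H (F.vx q) ⊓ stabilizer H (F.vy q)))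
      rw [hYf q hqf] at h1
      linarith
    have key2 : (∃ r ∈ Rf, Nat.card ↥(stabilizer H (F.vx (θ r)) ⊓ stabilizer H (F.vy (θ r))) ≠
        Nat.card (stabilizer H (F.vr r))) →
        (B : ℝ)⁻¹ ≤ ∑ r ∈ Rf, (Y (θ r) - X r) + ∑ q ∈ (Rf.image θ)ᶜ, Y q := by
      rintro ⟨r, hr, hrc⟩
      have hfin := (hmem r).1 hr
      have h1 : Y (θ r) - X r ≤ ∑ r ∈ Rf, (Y (θ r) - X r) :=
        Finset.single_le_sum (f := fun r => Y (θ r) - X r) hterm hr
      have h2 := inv_card_ge hB (comp_subtype_inj hf (stabilizer H (F.vr r)))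
      obtain ⟨h3, h4, ⟨m, hm⟩, -⟩ := hcard r hr
      have hpos : 0 < Nat.card (stabilizer H (F.vr r)) := Nat.card_pos
      have hm2 : 2 ≤ m := by
        rcases m with _ | _ | m
        · rw [mul_zero] at hm
          omega
        · rw [zero_add, mul_one] at hm
          exact absurd hm.symm hrc
        · omega
      have h5 : 2 * Nat.card ↥(stabilizer H (F.vx (θ r)) ⊓ stabilizer H (F.vy (θ r))) ≤
          Nat.card (stabilizer H (F.vr r)) := by
        rw [hm, mul_comm]
        exact Nat.mul_le_mul_left _ hm2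
      have h6 : 2 * (Nat.card ↥(stabilizer H (F.vx (θ r)) ⊓ stabilizer H (F.vy (θ r))) : ℝ) ≤
          Nat.card (stabilizer H (F.vr r)) := by exact_mod_cast h5
      have h7 := inv_anti₀ (by linarith) h6
      rw [mul_inv] at h7
      rw [hXf r hfin, hYf _ h3] at h1
      linarith
    split_ifs with hO
    · rcases hO with ⟨hA, -⟩ | ⟨u, v, huv, hK, hu, hv⟩
      · by_contra hcon
        have hk1 : ∀ q, q ∈ Rf.image θ := by
          intro q
          by_contra hq
          exact hcon (key1 ⟨q, hq, hA _ _ (F.adj q)⟩)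
        refine no_full F hθ fun q => ?_
        obtain ⟨r, hr, hrq⟩ := Finset.mem_image.1 (hk1 q)
        refine ⟨r, hne r hr, hrq, (hcard r hr).2.2.2 ?_⟩
        by_contra hrc
        exact hcon (key2 ⟨r, hr, hrc⟩)
      · obtain ⟨q, k, hk⟩ := F.ex u v huv
        apply key1
        refine ⟨q, ?_, ?_⟩
        · intro hq
          obtain ⟨r, hr, rfl⟩ := Finset.mem_image.1 hq
          have hfin := (hmem r).1 hr
          have h1 : ∃ h : H, h • F.vr r = u ∨ h • F.vr r = v := by
            rcases (hθ r (hne r hr)).2.2 with ⟨h3, -⟩ | ⟨-, h3⟩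
            · refine ⟨k * (g r)⁻¹, ?_⟩
              rw [mul_smul, ← h3, inv_smul_smul]
              rcases hk with ⟨h5, -⟩ | ⟨h5, -⟩
              · exact Or.inl h5
              · exact Or.inr h5
            · refine ⟨k * (g r)⁻¹, ?_⟩
              rw [mul_smul, ← h3, inv_smul_smul]
              rcases hk with ⟨-, h5⟩ | ⟨-, h5⟩
              · exact Or.inr h5
              · exact Or.inl h5
          obtain ⟨h, h2 | h2⟩ := h1
          · have := finite_stab_smul h2 hfin
            exact not_finite (stabilizer H u)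
          · have := finite_stab_smul h2 hfin
            exact not_finite (stabilizer H v)
        · have hmap : ∀ x : ↥(stabilizer H (F.vx q) ⊓ stabilizer H (F.vy q)),
              k * x.1 * k⁻¹ ∈ stabilizer H u ⊓ stabilizer H v := by
            intro x
            have h2 : x.1 • F.vx q = F.vx q := x.2.1
            have h3 : x.1 • F.vy q = F.vy q := x.2.2
            have h4 : (k * x.1 * k⁻¹) • k • F.vx q = k • F.vx q := by
              rw [← mul_smul, inv_mul_cancel_right, mul_smul, h2]
            have h5 : (k * x.1 * k⁻¹) • k • F.vy q = k • F.vy q := by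
              rw [← mul_smul, inv_mul_cancel_right, mul_smul, h3]
            rcases hk with ⟨h6, h7⟩ | ⟨h6, h7⟩
            · rw [h6] at h4
              rw [h7] at h5
              exact ⟨h4, h5⟩
            · rw [h6] at h4
              rw [h7] at h5
              exact ⟨h5, h4⟩
          refine Finite.of_injective (fun x => (⟨_, hmap x⟩ : ↥(stabilizer H u ⊓ stabilizer H v))) ?_
          intro a b hab
          have h2 : k * a.1 * k⁻¹ = k * b.1 * k⁻¹ := congrArg Subtype.val hab
          exact Subtype.ext (mul_left_cancel (mul_right_cancel h2))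
    · linarith

end Pool.Agent.Helper21.SG
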