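import Pool.Agent.Helper21.SG.A.VN1

/-! The trace of equivariant operators. -/

namespace Pool.Agent.Helper21.SG

open scoped InnerProductSpace

section Delta

variable {Γ : Type} {ι : Type} [Fintype ι]

open Classical in
/-- the delta function at `γ` -/
noncomputable def dl (γ : Γ) : V2 Γ := lp.single 2 γ (1 : ℝ)

open Classical in
/-- the delta function at `γ` in the coordinate `i` -/
noncomputable def ee (i : ι) (γ : Γ) : W2 Γ ι := PiLp.single 2 i (dl γ)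

theorem dl_apply_self (γ : Γ) : dl γ γ = 1 := by
  classical
  unfold dl
  exact lp.single_apply_self 2 γ 1

theorem dl_apply_ne {γ γ' : Γ} (h : γ' ≠ γ) : dl γ γ' = 0 := by
  classical
  unfold dl
  exact lp.single_apply_ne 2 γ 1 h

theorem inner_dl (x : V2 Γ) (γ : Γ) : ⟪dl γ, x⟫_ℝ = x γ := by
  classical
  unfold dl
  rw [lp.inner_single_left]
  simp

theorem inner_ee (x : W2 Γ ι) (i : ι) (γ : Γ) : ⟪ee i γ, x⟫_ℝ = x i γ := by
  classical
  rw [PiLp.inner_apply, Finset.sum_eq_single i]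
  · rw [ee, PiLp.single_eq_same, inner_dl]
  · intro j _ hj
    rw [ee, PiLp.single_eq_of_ne 2 hj, inner_zero_left]
  · intro h
    exact absurd (Finset.mem_univ i) h

end Delta

variable {Γ : Type} [Group Γ] {ι κ μ : Type} [Fintype ι] [Fintype κ] [Fintype μ]

theorem rho_dl (g γ : Γ) : rho g (dl γ) = dl (γ * g⁻¹) := by
  ext γ'
  rw [rho_apply]
  by_cases h : γ' = γ * g⁻¹
  · rw [h, inv_mul_cancel_right, dl_apply_self, dl_apply_self]
  · rw [dl_apply_ne h, dl_apply_ne]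
    rintro rfl
    exact h (by rw [mul_inv_cancel_right])

theorem rhoW_ee (g γ : Γ) (i : ι) : rhoW g (ee i γ) = ee i (γ * g⁻¹) := by
  classical
  refine PiLp.ext fun j => ?_
  rw [rhoW_apply]
  by_cases h : j = i
  · subst h
    rw [ee, ee, PiLp.single_eq_same, PiLp.single_eq_same, rho_dl]
  · rw [ee, ee, PiLp.single_eq_of_ne 2 h, PiLp.single_eq_of_ne 2 h, map_zero]

/-- equivariance under right translations -/
def Eqv (A : W2 Γ ι →L[ℝ] W2 Γ κ) : Prop := ∀ (g : Γ) x, A (rhoW g x) = rhoW g (A x)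

/-- the trace -/
noncomputable def tr (A : W2 Γ ι →L[ℝ] W2 Γ ι) : ℝ := ∑ i, (A (ee i 1)) i 1

theorem tr_add (A B : W2 Γ ι →L[ℝ] W2 Γ ι) : tr (A + B) = tr A + tr B := by
  simp [tr, Finset.sum_add_distrib]

theorem tr_smul (c : ℝ) (A : W2 Γ ι →L[ℝ] W2 Γ ι) : tr (c • A) = c * tr A := by
  simp [tr, Finset.mul_sum]

theorem tr_sub (A B : W2 Γ ι →L[ℝ] W2 Γ ι) : tr (A - B) = tr A - tr B := by
  simp [tr, Finset.sum_sub_distrib]

theorem tr_one : tr (1 : W2 Γ ι →L[ℝ] W2 Γ ι) = Fintype.card ι := by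
  classical
  unfold tr
  have : ∀ i : ι, ((1 : W2 Γ ι →L[ℝ] W2 Γ ι) (ee i 1)) i 1 = 1 := by
    intro i
    rw [one_apply_eq_self, ee, PiLp.single_eq_same, dl_apply_self]
  rw [Finset.sum_congr rfl fun i _ => this i]
  simp

theorem Eqv.comp {A : W2 Γ κ →L[ℝ] W2 Γ μ} {B : W2 Γ ι →L[ℝ] W2 Γ κ} (hA : Eqv A) (hB : Eqv B) :
    Eqv (A ∘L B) := fun g x => by
  rw [ContinuousLinearMap.comp_apply, hB, hA, ContinuousLinearMap.comp_apply]

theorem Eqv.one : Eqv (1 : W2 Γ ι →L[ℝ] W2 Γ ι) := fun _ _ => rfl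

theorem Eqv.add {A B : W2 Γ ι →L[ℝ] W2 Γ κ} (hA : Eqv A) (hB : Eqv B) : Eqv (A + B) :=
  fun g x => by
    rw [add_apply, add_apply, hA, hB, map_add]

theorem Eqv.sub {A B : W2 Γ ι →L[ℝ] W2 Γ κ} (hA : Eqv A) (hB : Eqv B) : Eqv (A - B) :=
  fun g x => by
    rw [sub_apply, sub_apply, hA, hB, map_sub]

theorem Eqv.smul {A : W2 Γ ι →L[ℝ] W2 Γ κ} (hA : Eqv A) (c : ℝ) : Eqv (c • A) :=
  fun g x => by
    rw [smul_apply, smul_apply, hA, map_smul]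

theorem Eqv.pow {A : W2 Γ ι →L[ℝ] W2 Γ ι} (hA : Eqv A) (n : ℕ) : Eqv (A ^ n) := by
  induction n with
  | zero => exact Eqv.one
  | succ n ih => rw [pow_succ]; exact ih.comp hA

theorem inner_rhoW (g : Γ) (x y : W2 Γ ι) : ⟪rhoW g x, rhoW g y⟫_ℝ = ⟪x, y⟫_ℝ := by
  rw [PiLp.inner_apply, PiLp.inner_apply]
  refine Finset.sum_congr rfl fun i _ => ?_
  rw [rhoW_apply, rhoW_apply, LinearIsometry.inner_map_map]

theorem rhoW_mul (g h : Γ) (x : W2 Γ ι) : rhoW (g * h) x = rhoW g (rhoW h x) := by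
  refine PiLp.ext fun i => ?_
  rw [rhoW_apply, rhoW_apply, rhoW_apply, rho_mul]

theorem rhoW_one (x : W2 Γ ι) : rhoW 1 x = x := by
  refine PiLp.ext fun i => ?_
  rw [rhoW_apply, rho_one]

theorem rhoW_inv_rhoW (g : Γ) (x : W2 Γ ι) : rhoW g⁻¹ (rhoW g x) = x := by
  rw [← rhoW_mul, inv_mul_cancel, rhoW_one]

theorem rhoW_rhoW_inv (g : Γ) (x : W2 Γ ι) : rhoW g (rhoW g⁻¹ x) = x := by
  rw [← rhoW_mul, mul_inv_cancel, rhoW_one]

theorem inner_rhoW_left (g : Γ) (x y : W2 Γ ι) : ⟪rhoW g x, y⟫_ℝ = ⟪x, rhoW g⁻¹ y⟫_ℝ := by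
  rw [← inner_rhoW g x, rhoW_rhoW_inv]

theorem inner_rhoW_right (g : Γ) (x y : W2 Γ ι) : ⟪x, rhoW g y⟫_ℝ = ⟪rhoW g⁻¹ x, y⟫_ℝ := by
  rw [← inner_rhoW g⁻¹ x, rhoW_inv_rhoW]

theorem Eqv.adjoint {A : W2 Γ ι →L[ℝ] W2 Γ κ} (hA : Eqv A) :
    Eqv (ContinuousLinearMap.adjoint A) := fun g x => by
  refine ext_inner_left ℝ fun y => ?_
  rw [ContinuousLinearMap.adjoint_inner_right, inner_rhoW_right, inner_rhoW_right,
    ContinuousLinearMap.adjoint_inner_right, hA]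

theorem adjoint_ee {S : W2 Γ κ →L[ℝ] W2 Γ ι} (hS : Eqv S) (i : ι) (k : κ) (γ : Γ) :
    (ContinuousLinearMap.adjoint S (ee i 1)) k γ = (S (ee k 1)) i γ⁻¹ := by
  rw [← inner_ee, ContinuousLinearMap.adjoint_inner_right, real_inner_comm, inner_ee]
  have h := hS γ⁻¹ (ee k 1)
  rw [rhoW_ee, one_mul, inv_inv] at h
  rw [h, rhoW_apply, rho_apply, one_mul]

theorem comp_ee {S : W2 Γ κ →L[ℝ] W2 Γ ι} (hS : Eqv S) (R : W2 Γ ι →L[ℝ] W2 Γ κ) (i : ι) :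
    (S (R (ee i 1))) i 1 = ∑ k, ∑' γ, (S (ee k 1)) i γ⁻¹ * (R (ee i 1)) k γ := by
  rw [← inner_ee, ← ContinuousLinearMap.adjoint_inner_left, PiLp.inner_apply]
  refine Finset.sum_congr rfl fun k _ => ?_
  rw [lp.inner_eq_tsum]
  refine tsum_congr fun γ => ?_
  rw [adjoint_ee hS, real_inner_eq_re_inner]
  simp [mul_comm]

theorem tr_comm {S : W2 Γ κ →L[ℝ] W2 Γ ι} {R : W2 Γ ι →L[ℝ] W2 Γ κ} (hS : Eqv S) (hR : Eqv R) :
    tr (S ∘L R) = tr (R ∘L S) := by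
  unfold tr
  simp only [ContinuousLinearMap.comp_apply]
  rw [Finset.sum_congr rfl fun i _ => comp_ee hS R i,
    Finset.sum_congr rfl fun i _ => comp_ee hR S i, Finset.sum_comm]
  refine Finset.sum_congr rfl fun k _ => Finset.sum_congr rfl fun i _ => ?_
  rw [← (Equiv.inv Γ).tsum_eq]
  refine tsum_congr fun γ => ?_
  simp [mul_comm]

end Pool.Agent.Helper21.SG
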