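import Pool.Agent.Helper21.SG.A.VN3

/-! Rank and nullity for equivariant operators. -/

set_option linter.unusedSectionVars false

namespace Pool.Agent.Helper21.SG

open scoped InnerProductSpace
open Filter Topology ContinuousLinearMap

variable {Γ : Type} [Group Γ] {ι κ : Type} [Fintype ι] [Fintype κ]

theorem Eqv.tt {A : W2 Γ ι →L[ℝ] W2 Γ κ} (hA : Eqv A) (c : ℝ) : Eqv (TT A c) :=
  Eqv.one.sub ((hA.adjoint.comp hA).smul c)

theorem comp_TT (A : W2 Γ ι →L[ℝ] W2 Γ κ) (c : ℝ) (n : ℕ) (x : W2 Γ ι) :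
    A ((TT A c ^ n) x) = (TT (adjoint A) c ^ n) (A x) := by
  induction n generalizing x with
  | zero => rfl
  | succ n ih =>
    have h1 : (TT A c ^ (n + 1)) x = (TT A c ^ n) (TT A c x) := by rw [pow_succ]; rfl
    have h2 : (TT (adjoint A) c ^ (n + 1)) (A x) =
      (TT (adjoint A) c ^ n) (TT (adjoint A) c (A x)) := by rw [pow_succ]; rfl
    rw [h1, h2, ih]
    congr 1
    have h3 : TT A c x = x - c • adjoint A (A x) := rfl
    have h4 : TT (adjoint A) c (A x) = A x - c • adjoint (adjoint A) (adjoint A (A x)) := rfl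
    rw [h3, h4, map_sub, map_smul, adjoint_adjoint]

theorem tr_TT_pow {A : W2 Γ ι →L[ℝ] W2 Γ κ} (hA : Eqv A) (c : ℝ) (n : ℕ) :
    tr (TT A c ^ n) - tr (TT (adjoint A) c ^ n) = (Fintype.card ι : ℝ) - Fintype.card κ := by
  induction n with
  | zero => rw [pow_zero, pow_zero, tr_one, tr_one]
  | succ n ih =>
    have h1 : TT A c ^ (n + 1) = TT A c ^ n - c • (((TT A c ^ n) ∘L adjoint A) ∘L A) := by
      ext1 x
      have h2 : (TT A c ^ (n + 1)) x = (TT A c ^ n) (TT A c x) := by rw [pow_succ]; rfl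
      have h3 : TT A c x = x - c • adjoint A (A x) := rfl
      rw [h2, h3, map_sub, map_smul]
      rfl
    have h1' : TT (adjoint A) c ^ (n + 1) =
        TT (adjoint A) c ^ n - c • (A ∘L ((TT A c ^ n) ∘L adjoint A)) := by
      ext1 x
      have h2 : (TT (adjoint A) c ^ (n + 1)) x =
        (TT (adjoint A) c ^ n) (TT (adjoint A) c x) := by rw [pow_succ]; rfl
      have h3 : TT (adjoint A) c x = x - c • A (adjoint A x) := by
        have h4 : TT (adjoint A) c x = x - c • adjoint (adjoint A) (adjoint A x) := rfl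
        rw [h4, adjoint_adjoint]
      rw [h2, h3, map_sub, map_smul]
      have h5 : (TT (adjoint A) c ^ n - c • (A ∘L ((TT A c ^ n) ∘L adjoint A))) x =
        (TT (adjoint A) c ^ n) x - c • A ((TT A c ^ n) (adjoint A x)) := rfl
      rw [h5, comp_TT]
    rw [h1, h1', tr_sub, tr_sub, tr_smul, tr_smul,
      tr_comm (((hA.tt c).pow n).comp hA.adjoint) hA]
    linarith

theorem orthogonal_range_eq (A : W2 Γ ι →L[ℝ] W2 Γ κ) :
    (LinearMap.range (A : W2 Γ ι →ₗ[ℝ] W2 Γ κ))ᗮ =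
      LinearMap.ker (adjoint A : W2 Γ κ →ₗ[ℝ] W2 Γ ι) := by
  ext y
  rw [Submodule.mem_orthogonal, LinearMap.mem_ker]
  constructor
  · intro h
    have h1 : ∀ x, ⟪x, adjoint A y⟫_ℝ = 0 := fun x => by
      rw [adjoint_inner_right]
      exact h (A x) ⟨x, rfl⟩
    exact inner_self_eq_zero.1 (h1 (adjoint A y))
  · rintro h _ ⟨x, rfl⟩
    have h1 : adjoint A y = 0 := h
    have h2 : ⟪A x, y⟫_ℝ = ⟪x, adjoint A y⟫_ℝ := (adjoint_inner_right A x y).symm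
    rw [h1, inner_zero_right] at h2
    exact h2

theorem rank_nullity {A : W2 Γ ι →L[ℝ] W2 Γ κ} (hA : Eqv A) :
    dimV (LinearMap.range (A : W2 Γ ι →ₗ[ℝ] W2 Γ κ)) +
      dimV (LinearMap.ker (A : W2 Γ ι →ₗ[ℝ] W2 Γ κ)) = Fintype.card ι := by
  have h1 := dimV_orthogonal (LinearMap.range (A : W2 Γ ι →ₗ[ℝ] W2 Γ κ))
  rw [orthogonal_range_eq] at h1
  set c : ℝ := (‖A‖ ^ 2 + 1)⁻¹ with hc
  have hp : 0 < ‖A‖ ^ 2 + 1 := by positivity
  have hc0 : 0 < c := inv_pos.2 hp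
  have hc1 : c * ‖A‖ ^ 2 ≤ 1 := by
    rw [hc, inv_mul_le_iff₀ hp]
    linarith
  have hc2 : c * ‖adjoint A‖ ^ 2 ≤ 1 := by
    rw [LinearIsometryEquiv.norm_map]
    exact hc1
  have h2 := (tendsto_TT A hc0 hc1).sub (tendsto_TT (adjoint A) hc0 hc2)
  have h3 : Tendsto (fun n : ℕ => (n : ℝ)⁻¹ * ∑ k ∈ Finset.range n, tr (TT A c ^ k) -
      (n : ℝ)⁻¹ * ∑ k ∈ Finset.range n, tr (TT (adjoint A) c ^ k)) atTop
      (𝓝 ((Fintype.card ι : ℝ) - Fintype.card κ)) := by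
    refine tendsto_const_nhds.congr' ?_
    filter_upwards [eventually_ge_atTop 1] with n hn
    have hn' : (n : ℝ) ≠ 0 := by positivity
    rw [← mul_sub, ← Finset.sum_sub_distrib,
      Finset.sum_congr rfl fun k _ => tr_TT_pow hA c k]
    rw [Finset.sum_const, Finset.card_range, nsmul_eq_mul]
    field_simp
  have h4 := tendsto_nhds_unique h2 h3
  linarith

theorem Inv.closed_pr_comm {M : Submodule ℝ (W2 Γ ι)} (h : Inv M) (g : Γ) (x : W2 Γ ι) :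
    pr M (rhoW g x) = rhoW g (pr M x) := h.eqv g x

/-- Rank and nullity on a closed invariant subspace. -/
theorem rank_nullity' {A : W2 Γ ι →L[ℝ] W2 Γ κ} (hA : Eqv A) {M : Submodule ℝ (W2 Γ ι)}
    (hM : Inv M) (hc : IsClosed (M : Set (W2 Γ ι))) :
    dimV (M.map (A : W2 Γ ι →ₗ[ℝ] W2 Γ κ)) +
      dimV (M ⊓ LinearMap.ker (A : W2 Γ ι →ₗ[ℝ] W2 Γ κ)) = dimV M := by
  have h1 := rank_nullity (hA.comp hM.eqv)
  have h2 : LinearMap.range ((A ∘L pr M : W2 Γ ι →L[ℝ] W2 Γ κ) : W2 Γ ι →ₗ[ℝ] W2 Γ κ) =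
      M.map (A : W2 Γ ι →ₗ[ℝ] W2 Γ κ) := by
    ext y
    constructor
    · rintro ⟨x, rfl⟩
      exact ⟨pr M x, pr_mem' hc x, rfl⟩
    · rintro ⟨x, hx, rfl⟩
      refine ⟨x, ?_⟩
      have h3 : pr M x = x := pr_eq_self (M.le_topologicalClosure hx)
      show A (pr M x) = A x
      rw [h3]
  have hK : IsClosed ((M ⊓ LinearMap.ker (A : W2 Γ ι →ₗ[ℝ] W2 Γ κ) : Submodule ℝ (W2 Γ ι)) :
      Set (W2 Γ ι)) := hc.inter (isClosed_ker A)
  have h3 : pr (LinearMap.ker ((A ∘L pr M : W2 Γ ι →L[ℝ] W2 Γ κ) : W2 Γ ι →ₗ[ℝ] W2 Γ κ)) =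
      pr (M ⊓ LinearMap.ker (A : W2 Γ ι →ₗ[ℝ] W2 Γ κ)) + (1 - pr M) := by
    ext1 x
    have hx := pr_mem' hK x
    have hx1 : pr M (pr (M ⊓ LinearMap.ker (A : W2 Γ ι →ₗ[ℝ] W2 Γ κ)) x) =
        pr (M ⊓ LinearMap.ker (A : W2 Γ ι →ₗ[ℝ] W2 Γ κ)) x :=
      pr_eq_self (M.le_topologicalClosure hx.1)
    have hx2 : pr M (pr M x) = pr M x := pr_eq_self (pr_mem M x)
    refine eq_pr ?_ fun z hz => ?_
    · show A (pr M (pr (M ⊓ LinearMap.ker (A : W2 Γ ι →ₗ[ℝ] W2 Γ κ)) x + (x - pr M x))) = 0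
      rw [map_add, map_sub, hx1, hx2, sub_self, add_zero]
      exact hx.2
    · have hz' : A (pr M z) = 0 := hz
      have h4 : x - (pr (M ⊓ LinearMap.ker (A : W2 Γ ι →ₗ[ℝ] W2 Γ κ)) + (1 - pr M)) x =
          pr M x - pr (M ⊓ LinearMap.ker (A : W2 Γ ι →ₗ[ℝ] W2 Γ κ)) x := by
        show x - (pr (M ⊓ LinearMap.ker (A : W2 Γ ι →ₗ[ℝ] W2 Γ κ)) x + (x - pr M x)) = _
        abel
      rw [h4]
      have h5 : ⟪z - pr M z, pr M x - pr (M ⊓ LinearMap.ker (A : W2 Γ ι →ₗ[ℝ] W2 Γ κ)) x⟫_ℝ = 0 :=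
        inner_pr M z (Submodule.sub_mem _ (pr_mem M x) (M.le_topologicalClosure hx.1))
      have h6 : ⟪x - pr M x, pr M z⟫_ℝ = 0 := inner_pr M x (pr_mem M z)
      have h7 : ⟪x - pr (M ⊓ LinearMap.ker (A : W2 Γ ι →ₗ[ℝ] W2 Γ κ)) x, pr M z⟫_ℝ = 0 :=
        inner_pr _ x (Submodule.le_topologicalClosure _ ⟨pr_mem' hc z, hz'⟩)
      rw [real_inner_comm] at h5
      rw [inner_sub_left] at h6 h7 ⊢
      rw [inner_sub_left, inner_sub_right, inner_sub_right] at h5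
      linarith
  rw [h2] at h1
  have h4 : dimV (LinearMap.ker ((A ∘L pr M : W2 Γ ι →L[ℝ] W2 Γ κ) : W2 Γ ι →ₗ[ℝ] W2 Γ κ)) =
      dimV (M ⊓ LinearMap.ker (A : W2 Γ ι →ₗ[ℝ] W2 Γ κ)) + (Fintype.card ι - dimV M) := by
    unfold dimV
    rw [h3, tr_add, tr_sub, tr_one]
  linarith

end Pool.Agent.Helper21.SG
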