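import Pool.Agent.Helper21.SG.A.VN4

/-! Direct sums of invariant subspaces, and equivariant bounded functionals of data. -/

set_option linter.unusedSectionVars false

namespace Pool.Agent.Helper21.SG

open scoped InnerProductSpace
open Filter Topology ContinuousLinearMap

variable {Γ : Type} [Group Γ]

section Sum

variable {κ : Type} [Fintype κ] {ι : κ → Type} [∀ k, Fintype (ι k)]

/-- the block `k` of a family -/
noncomputable def blk (k : κ) : W2 Γ (Σ k, ι k) →ₗ[ℝ] W2 Γ (ι k) where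
  toFun x := WithLp.toLp 2 fun i => x ⟨k, i⟩
  map_add' _ _ := rfl
  map_smul' _ _ := rfl

@[simp] theorem blk_apply (k : κ) (x : W2 Γ (Σ k, ι k)) (i : ι k) : blk k x i = x ⟨k, i⟩ := rfl

theorem continuous_blk (k : κ) : Continuous (blk (Γ := Γ) (ι := ι) k) := by
  refine (PiLp.continuous_toLp 2 _).comp (continuous_pi fun i => ?_)
  exact (continuous_apply (⟨k, i⟩ : Σ k, ι k)).comp (PiLp.continuous_ofLp 2 _)

/-- families whose blocks lie in given subspaces -/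
noncomputable def dsum (M : ∀ k, Submodule ℝ (W2 Γ (ι k))) : Submodule ℝ (W2 Γ (Σ k, ι k)) :=
  ⨅ k, (M k).comap (blk k)

theorem mem_dsum {M : ∀ k, Submodule ℝ (W2 Γ (ι k))} {x : W2 Γ (Σ k, ι k)} :
    x ∈ dsum M ↔ ∀ k, blk k x ∈ M k := by
  simp [dsum, Submodule.mem_iInf]

theorem isClosed_dsum {M : ∀ k, Submodule ℝ (W2 Γ (ι k))}
    (hM : ∀ k, IsClosed (M k : Set (W2 Γ (ι k)))) :
    IsClosed (dsum M : Set (W2 Γ (Σ k, ι k))) := by
  have h : (dsum M : Set (W2 Γ (Σ k, ι k))) = ⋂ k, blk k ⁻¹' (M k : Set (W2 Γ (ι k))) := by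
    ext x
    simp only [SetLike.mem_coe, mem_dsum, Set.mem_iInter, Set.mem_preimage]
  rw [h]
  exact isClosed_iInter fun k => (hM k).preimage (continuous_blk k)

theorem inv_dsum {M : ∀ k, Submodule ℝ (W2 Γ (ι k))} (hM : ∀ k, Inv (M k)) : Inv (dsum M) := by
  intro g x hx
  rw [mem_dsum] at hx ⊢
  intro k
  exact hM k g _ (hx k)

theorem inner_blk (x y : W2 Γ (Σ k, ι k)) : ⟪x, y⟫_ℝ = ∑ k, ⟪blk k x, blk k y⟫_ℝ := by
  rw [PiLp.inner_apply, Fintype.sum_sigma]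
  refine Finset.sum_congr rfl fun k _ => ?_
  rw [PiLp.inner_apply]
  rfl

theorem blk_ee (k : κ) (i : ι k) (γ : Γ) : blk k (ee (⟨k, i⟩ : Σ k, ι k) γ) = ee i γ := by
  classical
  refine PiLp.ext fun j => ?_
  rw [blk_apply]
  by_cases h : j = i
  · subst h
    rw [ee, ee, PiLp.single_eq_same, PiLp.single_eq_same]
  · rw [ee, ee, PiLp.single_eq_of_ne 2 h, PiLp.single_eq_of_ne]
    intro h'
    apply h
    simpa using h'

theorem pr_dsum {M : ∀ k, Submodule ℝ (W2 Γ (ι k))}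
    (hM : ∀ k, IsClosed (M k : Set (W2 Γ (ι k)))) (x : W2 Γ (Σ k, ι k)) (k : κ) :
    blk k (pr (dsum M) x) = pr (M k) (blk k x) := by
  have h : pr (dsum M) x = WithLp.toLp 2 fun a : Σ k, ι k => (pr (M a.1) (blk a.1 x)) a.2 := by
    refine eq_pr ?_ fun z hz => ?_
    · rw [mem_dsum]
      intro k
      exact pr_mem' (hM k) (blk k x)
    · rw [inner_blk]
      refine Finset.sum_eq_zero fun k _ => ?_
      rw [map_sub]
      exact inner_pr (M k) (blk k x) ((M k).le_topologicalClosure (mem_dsum.1 hz k))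
  rw [h]
  rfl

theorem dimV_dsum {M : ∀ k, Submodule ℝ (W2 Γ (ι k))}
    (hM : ∀ k, IsClosed (M k : Set (W2 Γ (ι k)))) : dimV (dsum M) = ∑ k, dimV (M k) := by
  unfold dimV tr
  rw [Fintype.sum_sigma]
  refine Finset.sum_congr rfl fun k _ => Finset.sum_congr rfl fun i _ => ?_
  have h := pr_dsum hM (ee (⟨k, i⟩ : Σ k, ι k) 1) k
  rw [blk_ee] at h
  rw [← h]
  rfl

end Sum

section Op

variable {ι κ : Type} [Fintype ι] [Fintype κ] {D : Type}

/-- `φ` is an equivariant bounded linear function of the values of `ev` -/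
def OpV (ev : D → W2 Γ ι) (φ : D → V2 Γ) : Prop :=
  ∃ A : W2 Γ ι →L[ℝ] V2 Γ, (∀ g x, A (rhoW g x) = rho g (A x)) ∧ ∀ d, φ d = A (ev d)

variable {ev : D → W2 Γ ι}

theorem OpV.zero : OpV ev fun _ => 0 := ⟨0, fun g x => by simp, fun d => rfl⟩

theorem OpV.coord (i : ι) : OpV ev fun d => ev d i :=
  ⟨PiLp.proj 2 (fun _ : ι => V2 Γ) i, fun _ _ => rfl, fun _ => rfl⟩

theorem OpV.add {φ ψ : D → V2 Γ} (hφ : OpV ev φ) (hψ : OpV ev ψ) : OpV ev fun d => φ d + ψ d := by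
  obtain ⟨A, hA, hA'⟩ := hφ
  obtain ⟨B, hB, hB'⟩ := hψ
  refine ⟨A + B, fun g x => ?_, fun d => ?_⟩
  · rw [add_apply, add_apply, hA, hB, map_add]
  · show φ d + ψ d = A (ev d) + B (ev d)
    rw [hA', hB']

theorem OpV.sub {φ ψ : D → V2 Γ} (hφ : OpV ev φ) (hψ : OpV ev ψ) : OpV ev fun d => φ d - ψ d := by
  obtain ⟨A, hA, hA'⟩ := hφ
  obtain ⟨B, hB, hB'⟩ := hψ
  refine ⟨A - B, fun g x => ?_, fun d => ?_⟩
  · rw [sub_apply, sub_apply, hA, hB, map_sub]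
  · show φ d - ψ d = A (ev d) - B (ev d)
    rw [hA', hB']

theorem OpV.neg {φ : D → V2 Γ} (hφ : OpV ev φ) : OpV ev fun d => -φ d := by
  have h := OpV.zero.sub hφ
  simpa using h

theorem OpV.lam {φ : D → V2 Γ} (hφ : OpV ev φ) (γ : Γ) : OpV ev fun d => lam γ (φ d) := by
  obtain ⟨A, hA, hA'⟩ := hφ
  refine ⟨(SG.lam γ).toContinuousLinearMap ∘L A, fun g x => ?_, fun d => ?_⟩
  · show SG.lam γ (A (rhoW g x)) = rho g (SG.lam γ (A x))
    rw [hA, lam_rho]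
  · show SG.lam γ (φ d) = SG.lam γ (A (ev d))
    rw [hA']

theorem OpV.congr {φ ψ : D → V2 Γ} (hφ : OpV ev φ) (h : ∀ d, ψ d = φ d) : OpV ev ψ := by
  obtain ⟨A, hA, hA'⟩ := hφ
  exact ⟨A, hA, fun d => (h d).trans (hA' d)⟩

/-- the bounded operator with given coordinates -/
theorem exists_pi (A : κ → W2 Γ ι →L[ℝ] V2 Γ) : ∃ B : W2 Γ ι →L[ℝ] W2 Γ κ, ∀ x k, B x k = A k x :=
  ⟨(PiLp.continuousLinearEquiv 2 ℝ (fun _ : κ => V2 Γ)).symm.toContinuousLinearMap ∘L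
    ContinuousLinearMap.pi A, fun _ _ => rfl⟩

theorem OpV.pi {φ : κ → D → V2 Γ} (h : ∀ k, OpV ev (φ k)) :
    ∃ A : W2 Γ ι →L[ℝ] W2 Γ κ, Eqv A ∧ ∀ d k, A (ev d) k = φ k d := by
  choose A hA hA' using h
  obtain ⟨B, hB⟩ := exists_pi A
  refine ⟨B, fun g x => PiLp.ext fun k => ?_, fun d k => ?_⟩
  · rw [hB, hA, rhoW_apply, hB]
  · rw [hB, hA']

theorem OpV.comp {D' : Type} {ev' : D' → W2 Γ κ} {φ : D' → V2 Γ} (hφ : OpV ev' φ) (F : D → D')
    (h : ∀ k, OpV ev fun d => ev' (F d) k) : OpV ev fun d => φ (F d) := by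
  obtain ⟨A, hA, hA'⟩ := hφ
  obtain ⟨B, hB, hB'⟩ := OpV.pi h
  refine ⟨A ∘L B, fun g x => ?_, fun d => ?_⟩
  · rw [ContinuousLinearMap.comp_apply, hB, hA, ContinuousLinearMap.comp_apply]
  · show φ (F d) = A (B (ev d))
    rw [hA']
    congr 1
    exact (PiLp.ext fun k => hB' d k).symm

/-- The dimension inequality for an equivariant operator on a closed invariant subspace. -/
theorem dimV_le {A : W2 Γ ι →L[ℝ] W2 Γ κ} (hA : Eqv A) {M : Submodule ℝ (W2 Γ ι)}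
    (hM : Inv M) (hc : IsClosed (M : Set (W2 Γ ι))) {N : Submodule ℝ (W2 Γ κ)}
    (h : ∀ x ∈ M, A x ∈ N) :
    dimV M ≤ dimV N + dimV (M ⊓ LinearMap.ker (A : W2 Γ ι →ₗ[ℝ] W2 Γ κ)) := by
  rw [← rank_nullity' hA hM hc]
  have h1 : M.map (A : W2 Γ ι →ₗ[ℝ] W2 Γ κ) ≤ N := by
    rintro _ ⟨x, hx, rfl⟩
    exact h x hx
  have h2 := dimV_mono h1
  linarith

/-- The dimension of an image is at most the number of coordinates of the source. -/
theorem dimV_map_le {A : W2 Γ ι →L[ℝ] W2 Γ κ} (hA : Eqv A) {N : Submodule ℝ (W2 Γ κ)}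
    (h : ∀ y ∈ N, ∃ x, A x = y) : dimV N ≤ Fintype.card ι := by
  have h1 := rank_nullity hA
  have h2 : N ≤ LinearMap.range (A : W2 Γ ι →ₗ[ℝ] W2 Γ κ) := fun y hy => h y hy
  have h3 := dimV_mono h2
  have h4 := dimV_nonneg (LinearMap.ker (A : W2 Γ ι →ₗ[ℝ] W2 Γ κ))
  linarith

end Op

end Pool.Agent.Helper21.SG
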