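import Pool.Agent.Helper21.SG.A.VN6
import Pool.Agent.Helper21.SG.A.FinVZ

/-! Values of the cocycle dimension: infinite groups, finite groups, two-ended groups. -/

set_option linter.unusedSectionVars false

namespace Pool.Agent.Helper21.SG

open scoped InnerProductSpace
open Filter Topology

variable {Γ : Type} [Group Γ] {H : Type} [Group H] {ι κ : Type} [Fintype ι] [Fintype κ]

theorem inv_zero {S : Set Γ} (hS : S.Infinite) {v : V2 Γ} (h : ∀ γ ∈ S, lam γ v = v) : v = 0 := by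
  by_contra hv
  obtain ⟨γ, hγ⟩ : ∃ γ, v γ ≠ 0 := by
    by_contra h0
    push Not at h0
    exact hv (lp.ext (funext h0))
  have h1 : Summable fun γ => ‖v γ‖ ^ (2 : ENNReal).toReal :=
    (memℓp_gen_iff (by norm_num)).1 (lp.memℓp v)
  have := hS.to_subtype
  have h2 : Function.Injective fun x : S => x.1⁻¹ * γ := by
    intro a b hab
    have hab' : a.1⁻¹ * γ = b.1⁻¹ * γ := hab
    exact Subtype.ext (inv_injective (mul_right_cancel hab'))
  have h3 := h1.comp_injective h2
  have h4 : (fun γ => ‖v γ‖ ^ (2 : ENNReal).toReal) ∘ (fun x : S => x.1⁻¹ * γ) =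
      fun _ : S => ‖v γ‖ ^ (2 : ENNReal).toReal := by
    funext x
    show ‖v (x.1⁻¹ * γ)‖ ^ (2 : ENNReal).toReal = _
    rw [← lam_apply, h x.1 x.2]
  rw [h4, summable_const_iff] at h3
  have h5 : ‖v γ‖ = 0 := by
    by_contra h6
    have h7 : 0 < ‖v γ‖ := lt_of_le_of_ne (norm_nonneg _) (Ne.symm h6)
    exact (Real.rpow_pos_of_pos h7 _).ne' h3
  exact hγ (norm_eq_zero.1 h5)

/-- the coboundary operator -/
theorem exists_cob (f : H →* Γ) (s : ι → H) : ∃ A : W2 Γ Unit →L[ℝ] W2 Γ ι, Eqv A ∧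
    ∀ x i, A x i = lam (f (s i)) (x ()) - x () := by
  obtain ⟨A, hA, hA'⟩ := OpV.pi (D := W2 Γ Unit) (ev := id)
    (φ := fun i x => lam (f (s i)) (x ()) - x ())
    (fun i => ((OpV.coord ()).lam (f (s i))).sub (OpV.coord ()))
  exact ⟨A, hA, hA'⟩

theorem cob_mem_ZZ {f : H →* Γ} {s : ι → H} {A : W2 Γ Unit →L[ℝ] W2 Γ ι}
    (hA : ∀ x i, A x i = lam (f (s i)) (x ()) - x ()) (x : W2 Γ Unit) : A x ∈ ZZ f s :=
  ⟨fun g => lam (f g) (x ()) - x (), Coc.cob f (x ()), fun i => hA x i⟩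

theorem fix_of_gen {f : H →* Γ} {s : ι → H} (hs : Gen s) {v : V2 Γ}
    (h : ∀ i, lam (f (s i)) v = v) (g : H) : lam (f g) v = v :=
  sub_eq_zero.1 ((Coc.cob f v).eq_zero hs (fun i => sub_eq_zero.2 (h i)) g)

theorem one_le_del [Group.FG H] [Infinite H] {f : H →* Γ} (hf : Function.Injective f) :
    1 ≤ del f := by
  obtain ⟨n, s, hs⟩ := exists_gen (H := H)
  rw [del_eq f hs]
  obtain ⟨A, hA, hA'⟩ := exists_cob f s
  have h1 := dimV_le hA (M := ⊤) (fun _ _ _ => Submodule.mem_top) isClosed_univ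
    (N := ZZ f s) (fun x _ => cob_mem_ZZ hA' x)
  have h2 : (⊤ ⊓ LinearMap.ker (A : W2 Γ Unit →ₗ[ℝ] W2 Γ (Fin n)) :
      Submodule ℝ (W2 Γ Unit)) = ⊥ := by
    rw [eq_bot_iff]
    rintro x ⟨-, hx⟩
    have h3 : A x = 0 := hx
    have h4 : ∀ i, lam (f (s i)) (x ()) = x () := fun i => by
      rw [← sub_eq_zero, ← hA', h3]
      rfl
    have h5 := fix_of_gen hs h4
    have h6 : x () = 0 := by
      refine inv_zero (S := Set.range f) (Set.infinite_range_of_injective hf) ?_
      rintro _ ⟨g, rfl⟩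
      exact h5 g
    rw [Submodule.mem_bot]
    exact PiLp.ext fun _ => h6
  rw [h2, dimV_bot, dimV_top] at h1
  simpa using h1

/-- the invariant vectors -/
noncomputable def InvV (f : H →* Γ) : Submodule ℝ (W2 Γ Unit) where
  carrier := {x | ∀ h, lam (f h) (x ()) = x ()}
  zero_mem' := fun h => map_zero _
  add_mem' := by
    intro x y hx hy h
    rw [PiLp.add_apply, map_add, hx h, hy h]
  smul_mem' := by
    intro a x hx h
    rw [PiLp.smul_apply, map_smul, hx h]

theorem inner_lam (g : Γ) (x y : V2 Γ) : ⟪lam g x, y⟫_ℝ = ⟪x, lam g⁻¹ y⟫_ℝ := by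
  have h : y = lam g (lam g⁻¹ y) := by rw [← lam_mul, mul_inv_cancel, lam_one]
  conv_lhs => rw [h]
  rw [LinearIsometry.inner_map_map]

theorem dimV_InvV [Fintype H] {f : H →* Γ} (hf : Function.Injective f) :
    dimV (InvV f) = (Fintype.card H : ℝ)⁻¹ := by
  have hc : (Fintype.card H : ℝ) ≠ 0 := by
    have : 0 < Fintype.card H := Fintype.card_pos
    positivity
  have h1 : ∀ x : W2 Γ Unit, pr (InvV f) x =
      WithLp.toLp 2 fun _ => (Fintype.card H : ℝ)⁻¹ • ∑ h, lam (f h) (x ()) := by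
    intro x
    refine eq_pr ?_ fun z hz => ?_
    · intro g
      show lam (f g) ((Fintype.card H : ℝ)⁻¹ • ∑ h, lam (f h) (x ())) =
        (Fintype.card H : ℝ)⁻¹ • ∑ h, lam (f h) (x ())
      rw [map_smul, map_sum]
      congr 1
      rw [← Equiv.sum_comp (Equiv.mulLeft g) fun h => lam (f h) (x ())]
      refine Finset.sum_congr rfl fun h _ => ?_
      rw [Equiv.coe_mulLeft, map_mul, lam_mul]
    · have h2 : ∀ h, ⟪lam (f h) (x ()), z ()⟫_ℝ = ⟪x (), z ()⟫_ℝ := fun h => by
        rw [inner_lam, ← map_inv, hz h⁻¹]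
      rw [PiLp.inner_apply, Fintype.sum_unique]
      show ⟪x () - (Fintype.card H : ℝ)⁻¹ • ∑ h, lam (f h) (x ()), z ()⟫_ℝ = 0
      rw [inner_sub_left, real_inner_smul_left, sum_inner,
        Finset.sum_congr rfl fun h _ => h2 h, Finset.sum_const, Finset.card_univ, nsmul_eq_mul]
      field_simp
      ring
  unfold dimV tr
  rw [Fintype.sum_unique, h1]
  show ((Fintype.card H : ℝ)⁻¹ • ∑ h, lam (f h) ((ee () 1 : W2 Γ Unit) ())) 1 = _
  have h3 : (ee () 1 : W2 Γ Unit) () = dl 1 := by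
    classical
    rw [ee, PiLp.single_eq_same]
  rw [h3]
  rw [← inner_dl, real_inner_smul_right, inner_sum, Finset.sum_eq_single 1]
  · rw [inner_dl, map_one, lam_one, dl_apply_self, mul_one]
  · intro h _ hh
    rw [inner_dl, lam_apply, mul_one, dl_apply_ne]
    intro h5
    rw [inv_eq_one] at h5
    exact hh (hf (h5.trans (map_one f).symm))
  · intro h
    exact absurd (Finset.mem_univ _) h

theorem exists_cob_of_finite [Fintype H] {f : H →* Γ} {c : H → V2 Γ} (hc : Coc f c) :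
    ∃ v, ∀ g, c g = lam (f g) v - v := by
  have hn : (Fintype.card H : ℝ) ≠ 0 := by
    have : 0 < Fintype.card H := Fintype.card_pos
    positivity
  refine ⟨-((Fintype.card H : ℝ)⁻¹ • ∑ h, c h), fun g => ?_⟩
  have h1 : ∑ h, c h = (Fintype.card H : ℝ) • c g + lam (f g) (∑ h, c h) := by
    conv_lhs => rw [← Equiv.sum_comp (Equiv.mulLeft g) c]
    rw [map_sum, Finset.sum_congr rfl fun h _ => by rw [Equiv.coe_mulLeft, hc g h],
      Finset.sum_add_distrib, Finset.sum_const, Finset.card_univ, Nat.cast_smul_eq_nsmul]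
  have h2 : c g = (Fintype.card H : ℝ)⁻¹ • (∑ h, c h - lam (f g) (∑ h, c h)) := by
    rw [eq_inv_smul_iff₀ hn, eq_sub_iff_add_eq]
    exact h1.symm
  rw [map_neg, map_smul, neg_sub_neg, ← smul_sub]
  exact h2

theorem del_of_finite [Fintype H] {f : H →* Γ} (hf : Function.Injective f) :
    del f = 1 - (Fintype.card H : ℝ)⁻¹ := by
  have hs : Gen (id : H → H) := by
    unfold Gen
    rw [Set.range_id, Subgroup.closure_univ]
  rw [del_eq f hs]
  obtain ⟨A, hA, hA'⟩ := exists_cob f (id : H → H)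
  have h1 := rank_nullity hA
  have h2 : LinearMap.range (A : W2 Γ Unit →ₗ[ℝ] W2 Γ H) = ZZ f (id : H → H) := by
    ext v
    constructor
    · rintro ⟨x, rfl⟩
      exact cob_mem_ZZ hA' x
    · rintro ⟨c, hc, hv⟩
      obtain ⟨w, hw⟩ := exists_cob_of_finite hc
      refine ⟨WithLp.toLp 2 fun _ => w, PiLp.ext fun i => ?_⟩
      rw [hv, hw]
      exact hA' _ i
  have h3 : LinearMap.ker (A : W2 Γ Unit →ₗ[ℝ] W2 Γ H) = InvV f := by
    ext x
    constructor
    · intro hx h
      have h4 : A x = 0 := hx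
      have h5 := hA' x h
      rw [h4] at h5
      exact (sub_eq_zero.1 h5.symm)
    · intro hx
      show A x = 0
      refine PiLp.ext fun h => ?_
      rw [hA' x h]
      exact sub_eq_zero.2 (hx h)
  rw [h2, h3, dimV_InvV hf] at h1
  rw [Fintype.card_unit, Nat.cast_one] at h1
  linarith

theorem del_le_one {f : H →* Γ} (hf : Function.Injective f) {t : H} (ht : orderOf t = 0)
    (hi : (Subgroup.zpowers t).FiniteIndex) [Group.FG H] : del f ≤ 1 := by
  obtain ⟨n, s, hs⟩ := exists_gen (H := H)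
  rw [del_eq f hs]
  obtain ⟨A, hA, hA'⟩ := OpV.pi fun _ : Unit => opV_coc f hs t
  have h1 := dimV_le hA (inv_ZZ f s) (isClosed_ZZ f hs) (N := ⊤) (fun _ _ => Submodule.mem_top)
  have h2 : ZZ f s ⊓ LinearMap.ker (A : W2 Γ (Fin n) →ₗ[ℝ] W2 Γ Unit) = ⊥ := by
    rw [eq_bot_iff]
    rintro v ⟨hv, hv'⟩
    obtain ⟨c, rfl⟩ := mem_ZZ.1 hv
    have h3 : c.1 t = 0 := by
      have h4 : A (evs s c) = 0 := hv'
      rw [← hA' c (), h4]
      rfl
    have h4 : ∀ k : ℤ, c.1 (t ^ k) = 0 := by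
      intro k
      induction k using Int.induction_on with
      | zero => rw [zpow_zero, c.2.one]
      | succ i hi => rw [zpow_add, zpow_one, c.2, hi, h3, map_zero, add_zero]
      | pred i hi => rw [zpow_sub, zpow_one, c.2, hi, c.2.inv, h3, map_zero, neg_zero, map_zero,
          add_zero]
    have h5 : ∀ n ∈ (Subgroup.zpowers t).normalCore, c.1 n = 0 := by
      intro n hn
      obtain ⟨k, rfl⟩ := Subgroup.mem_zpowers_iff.1 (Subgroup.normalCore_le _ hn)
      exact h4 k
    have h6 : ∀ n ∈ (Subgroup.zpowers t).normalCore, ∀ g, lam (f n) (c.1 g) = c.1 g := by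
      intro n hn g
      have h7 : g⁻¹ * n * g ∈ (Subgroup.zpowers t).normalCore := by
        have := (Subgroup.normalCore_normal (Subgroup.zpowers t)).conj_mem n hn g⁻¹
        rwa [inv_inv] at this
      have h8 : n * g = g * (g⁻¹ * n * g) := by group
      have h9 : c.1 (n * g) = lam (f n) (c.1 g) := by rw [c.2, h5 n hn, zero_add]
      rw [← h9, h8, c.2, h5 _ h7, map_zero, add_zero]
    obtain ⟨k, hk, -, hk'⟩ := Subgroup.exists_pow_mem_of_index_ne_zero
      (Subgroup.FiniteIndex.index_ne_zero (H := (Subgroup.zpowers t).normalCore)) t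
    have h7 : ∀ g, c.1 g = 0 := by
      intro g
      refine inv_zero (S := Set.range fun j : ℕ => f ((t ^ k) ^ j)) ?_ ?_
      · refine Set.infinite_range_of_injective (hf.comp ?_)
        rw [injective_pow_iff_not_isOfFinOrder, isOfFinOrder_pow, not_or]
        exact ⟨orderOf_eq_zero_iff.1 ht, hk.ne'⟩
      · rintro _ ⟨j, rfl⟩
        exact h6 _ (Subgroup.pow_mem _ hk' j) g
    rw [Submodule.mem_bot]
    exact PiLp.ext fun i => h7 (s i)
  rw [h2, dimV_bot, dimV_top, add_zero] at h1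
  simpa using h1

/-- the cocycle dimension of a finite or two-ended group is at most one -/
theorem del_finVZ {f : H →* Γ} (hf : Function.Injective f) (h : FinVZ H) : del f ≤ 1 := by
  rcases h with h | ⟨t, ht, hi⟩
  · have := Fintype.ofFinite H
    rw [del_of_finite hf]
    have : 0 ≤ (Fintype.card H : ℝ)⁻¹ := by positivity
    linarith
  · have := fg_finVZ H (Or.inr ⟨t, ht, hi⟩)
    exact del_le_one hf ht hi

end Pool.Agent.Helper21.SG
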