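import Pool.Agent.Helper21.SG.A.VN7
import Pool.Agent.Helper21.SG.A.Process

/-! Potentials on trees; representatives of the orbits of vertices and edges. -/

namespace Pool.Agent.Helper21.SG

open SimpleGraph Function MulAction

section Potential

variable {V : Type} {T : SimpleGraph V} {A : Type} [AddCommGroup A]

/-- the sum along a walk -/
def wsum (b : V → V → A) : ∀ {u v : V}, T.Walk u v → A
  | _, _, Walk.nil => 0
  | u, _, Walk.cons (v := v) _ p => b u v + wsum b p

/-- A function on the oriented edges of a tree is the difference of the values of a function on the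
vertices. -/
theorem exists_potential (hT : T.IsTree) (b : V → V → A)
    (hb : ∀ u v, T.Adj u v → b v u = - b u v) (o : V) :
    ∃ β : V → A, β o = 0 ∧ ∀ u v, T.Adj u v → β u = b u v + β v := by
  classical
  choose P hP hP' using fun x => hT.existsUnique_path o x
  refine ⟨fun x => wsum b (P x).reverse, ?_, fun u v h => ?_⟩
  · have h1 : (Walk.nil : T.Walk o o) = P o := hP' o _ Walk.IsPath.nil
    show wsum b (P o).reverse = 0
    rw [← h1]
    rfl
  · show wsum b (P u).reverse = b u v + wsum b (P v).reverse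
    by_cases hv : v ∈ (P u).support
    · have h1 := hT.isAcyclic.path_concat (hP v) (hP u) h.symm hv
      rw [h1, Walk.reverse_concat]
      rfl
    · have hu : u ∈ (P v).support :=
        hT.isAcyclic.mem_support_of_ne_mem_support_of_adj_of_isPath (hP v) (hP u) h.symm hv
      have h1 := hT.isAcyclic.path_concat (hP u) (hP v) h hu
      have h2 : wsum b (P v).reverse = b v u + wsum b (P u).reverse := by
        rw [h1, Walk.reverse_concat]
        rfl
      rw [h2, hb u v h]
      abel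

end Potential

variable {C : GroupClass} {H : Type} [Group H]

/-- Representatives of the orbits of vertices and of edges for a splitting. -/
structure Frame (S : Splitting C H) where
  R : Type
  Q : Type
  [fR : Fintype R]
  [fQ : Fintype Q]
  vr : R → S.V
  cl : S.V → R
  gam : S.V → H
  cl_smul : ∀ (g : H) (x : S.V), cl (g • x) = cl x
  cl_vr : ∀ r, cl (vr r) = r
  gam_smul : ∀ x, gam x • vr (cl x) = x
  gam_vr : ∀ r, gam (vr r) = 1
  vx : Q → S.V
  vy : Q → S.V
  adj : ∀ q, S.T.Adj (vx q) (vy q)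
  ex : ∀ u v, S.T.Adj u v →
    ∃ q, ∃ g : H, (g • vx q = u ∧ g • vy q = v) ∨ (g • vx q = v ∧ g • vy q = u)
  uniq : ∀ q q', ∀ g : H, g • vx q = vx q' → g • vy q = vy q' → q = q'
  noflip : ∀ q q', ∀ g : H, g • vx q = vy q' → g • vy q = vx q' → False

attribute [instance] Frame.fR Frame.fQ

/-- the relation of being in the same orbit up to orientation -/
def edgeSetoid (S : Splitting C H) : Setoid {p : S.V × S.V // S.T.Adj p.1 p.2} where
  r p p' := ∃ g : H, (g • p.1.1 = p'.1.1 ∧ g • p.1.2 = p'.1.2) ∨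
    (g • p.1.1 = p'.1.2 ∧ g • p.1.2 = p'.1.1)
  iseqv := by
    refine ⟨fun p => ⟨1, Or.inl ⟨one_smul _ _, one_smul _ _⟩⟩, ?_, ?_⟩
    · rintro p p' ⟨g, ⟨h1, h2⟩ | ⟨h1, h2⟩⟩
      · exact ⟨g⁻¹, Or.inl ⟨by rw [← h1, inv_smul_smul], by rw [← h2, inv_smul_smul]⟩⟩
      · exact ⟨g⁻¹, Or.inr ⟨by rw [← h2, inv_smul_smul], by rw [← h1, inv_smul_smul]⟩⟩
    · rintro p p' p'' ⟨g, hg⟩ ⟨h, hh⟩
      refine ⟨h * g, ?_⟩
      rw [mul_smul, mul_smul]
      rcases hg with ⟨h1, h2⟩ | ⟨h1, h2⟩ <;> rcases hh with ⟨h3, h4⟩ | ⟨h3, h4⟩ <;>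
        rw [h1, h2, h3, h4] <;> simp

theorem exists_frame (S : Splitting C H) (R : Finset S.V)
    (hR : ∀ v : S.V, ∃! r, r ∈ R ∧ ∃ g : H, g • v = r) :
    ∃ F : Frame S, ∃ e : F.R ≃ R, ∀ r, F.vr r = (e r).1 := by
  classical
  choose ρ hρ hρu using hR
  have hρR : ∀ v, ρ v ∈ R := fun v => (hρ v).1
  have hρs : ∀ (g : H) v, ρ (g • v) = ρ v := by
    intro g v
    symm
    apply hρu (g • v)
    refine ⟨hρR v, ?_⟩
    obtain ⟨h, hh⟩ := (hρ v).2
    exact ⟨h * g⁻¹, by rw [mul_smul, inv_smul_smul, hh]⟩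
  have hρr : ∀ v ∈ R, ρ v = v := fun v hv => (hρu v v ⟨hv, 1, one_smul _ _⟩).symm
  have hγ : ∀ x : S.V, ∃ g : H, g • ρ x = x ∧ (x ∈ R → g = 1) := by
    intro x
    by_cases hx : x ∈ R
    · exact ⟨1, by rw [hρr x hx, one_smul], fun _ => rfl⟩
    · obtain ⟨g, hg⟩ := (hρ x).2
      exact ⟨g⁻¹, by rw [← hg, inv_smul_smul], fun h => absurd h hx⟩
  choose γ hγ hγ1 using hγ
  let Q : Type := Quotient (edgeSetoid S)
  have hout : ∀ q : Q, ∀ p : {p : S.V × S.V // S.T.Adj p.1 p.2}, Quotient.mk _ p = q →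
      (edgeSetoid S).r q.out p := by
    intro q p hp
    apply Quotient.exact
    rw [hp]
    exact Quotient.out_eq q
  have huniq : ∀ q q' : Q, (edgeSetoid S).r q.out q'.out → q = q' := by
    intro q q' h
    rw [← Quotient.out_eq q, ← Quotient.out_eq q']
    exact Quotient.sound h
  have hfin : Finite Q := by
    obtain ⟨F, hF, hF'⟩ := S.fin
    have := hF.to_subtype
    choose t ht using fun q : Q => hF' q.out.1.1 q.out.1.2 q.out.2
    refine Finite.of_injective (fun q => (⟨_, ht q⟩ : F)) fun q q' h => ?_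
    have h1 := congrArg Subtype.val h
    rw [Prod.mk.injEq] at h1
    refine huniq q q' ⟨(t q')⁻¹ * t q, Or.inl ⟨?_, ?_⟩⟩
    · rw [mul_smul, h1.1, inv_smul_smul]
    · rw [mul_smul, h1.2, inv_smul_smul]
  have := Fintype.ofFinite Q
  refine ⟨
    { R := R
      Q := Q
      vr := Subtype.val
      cl := fun x => ⟨ρ x, hρR x⟩
      gam := γ
      cl_smul := fun g x => Subtype.ext (hρs g x)
      cl_vr := fun r => Subtype.ext (hρr r.1 r.2)
      gam_smul := hγ
      gam_vr := fun r => hγ1 r.1 r.2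
      vx := fun q => q.out.1.1
      vy := fun q => q.out.1.2
      adj := fun q => q.out.2
      ex := fun u v huv => by
        obtain ⟨g, hg⟩ := hout (Quotient.mk _ ⟨(u, v), huv⟩) ⟨(u, v), huv⟩ rfl
        exact ⟨Quotient.mk _ ⟨(u, v), huv⟩, g, hg⟩
      uniq := fun q q' g h1 h2 => huniq q q' ⟨g, Or.inl ⟨h1, h2⟩⟩
      noflip := fun q q' g h1 h2 => by
        have h3 : q = q' := huniq q q' ⟨g, Or.inr ⟨h1, h2⟩⟩
        subst h3
        exact S.noinv g _ _ q.out.2 ⟨h1, h2⟩ }, Equiv.refl _, fun r => rfl⟩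

end Pool.Agent.Helper21.SG
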