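import Pool.Agent.Helper21.SG.A.VN8

/-! Gluing cocycles of the vertex groups. -/

set_option linter.unusedSectionVars false

namespace Pool.Agent.Helper21.SG

open SimpleGraph Function MulAction

variable {Γ : Type} [Group Γ] {C : GroupClass} {H : Type} [Group H] {S : Splitting C H}
  (F : Frame S) (f : H →* Γ)

/-- cocycles of the vertex groups, and vectors for the edges -/
abbrev Dat : Type :=
  (∀ r : F.R, CocT (f.comp (stabilizer H (F.vr r)).subtype)) × (F.Q → V2 Γ)

variable {F f}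

open Classical in
/-- the cocycle at `r` as a function on `H` -/
noncomputable def cc (d : Dat F f) (r : F.R) (g : H) : V2 Γ :=
  if h : g ∈ stabilizer H (F.vr r) then (d.1 r).1 ⟨g, h⟩ else 0

theorem cc_of_mem (d : Dat F f) {r : F.R} {g : H} (h : g ∈ stabilizer H (F.vr r)) :
    cc d r g = (d.1 r).1 ⟨g, h⟩ := by
  unfold cc
  rw [dif_pos h]

theorem cc_mul (d : Dat F f) {r : F.R} {g h : H} (hg : g ∈ stabilizer H (F.vr r))
    (hh : h ∈ stabilizer H (F.vr r)) : cc d r (g * h) = cc d r g + lam (f g) (cc d r h) := by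
  rw [cc_of_mem d hg, cc_of_mem d hh, cc_of_mem d (mul_mem hg hh)]
  exact (d.1 r).2 ⟨g, hg⟩ ⟨h, hh⟩

theorem cc_one (d : Dat F f) (r : F.R) : cc d r 1 = 0 := by
  rw [cc_of_mem d (one_mem _)]
  exact (d.1 r).2.one

/-- the groupoid cocycle -/
noncomputable def aa (d : Dat F f) (g : H) (x : S.V) : V2 Γ :=
  lam (f (F.gam (g • x))) (cc d (F.cl x) ((F.gam (g • x))⁻¹ * g * F.gam x))

theorem gam_inv_smul (x : S.V) : (F.gam x)⁻¹ • x = F.vr (F.cl x) := by
  rw [inv_smul_eq_iff, F.gam_smul]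

theorem mem_stab (g : H) (x : S.V) :
    (F.gam (g • x))⁻¹ * g * F.gam x ∈ stabilizer H (F.vr (F.cl x)) := by
  rw [mem_stabilizer_iff, mul_smul, mul_smul, F.gam_smul, gam_inv_smul, F.cl_smul]

theorem aa_mul (d : Dat F f) (g h : H) (x : S.V) :
    aa d (g * h) x = aa d g (h • x) + lam (f g) (aa d h x) := by
  unfold aa
  rw [mul_smul, F.cl_smul h x]
  have h1 : (F.gam (g • h • x))⁻¹ * (g * h) * F.gam x =
      ((F.gam (g • h • x))⁻¹ * g * F.gam (h • x)) * ((F.gam (h • x))⁻¹ * h * F.gam x) := by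
    group
  have h2 : (F.gam (g • h • x))⁻¹ * g * F.gam (h • x) ∈ stabilizer H (F.vr (F.cl x)) := by
    have h3 := mem_stab (F := F) g (h • x)
    rwa [F.cl_smul] at h3
  rw [h1, cc_mul d h2 (mem_stab h x), map_add, ← lam_mul, ← lam_mul, ← map_mul, ← map_mul]
  congr 3
  group

theorem aa_vr (d : Dat F f) {r : F.R} {h : H} (hh : h ∈ stabilizer H (F.vr r)) :
    aa d h (F.vr r) = cc d r h := by
  unfold aa
  rw [mem_stabilizer_iff.1 hh, F.gam_vr, F.cl_vr, map_one, lam_one, inv_one, one_mul, mul_one]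

theorem aa_gam (d : Dat F f) (x : S.V) : aa d (F.gam x) (F.vr (F.cl x)) = 0 := by
  unfold aa
  rw [F.gam_smul, F.cl_vr, F.gam_vr, mul_one, inv_mul_cancel, cc_one, map_zero]

/-- the value on the translate by `g` of the edge `q` -/
noncomputable def psi (d : Dat F f) (q : F.Q) (g : H) : V2 Γ :=
  aa d g (F.vy q) + lam (f g) (d.2 q) - aa d g (F.vx q)

theorem psi_mul (d : Dat F f) (q : F.Q) (g h : H) :
    psi d q (g * h) = lam (f g) (psi d q h) + aa d g (h • F.vy q) - aa d g (h • F.vx q) := by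
  unfold psi
  rw [aa_mul, aa_mul, map_mul, lam_mul, map_sub, map_add]
  abel

/-- the edge conditions -/
def GoodD (d : Dat F f) : Prop :=
  ∀ q, ∀ k : H, k • F.vx q = F.vx q → k • F.vy q = F.vy q → psi d q k = d.2 q

theorem psi_mul_of_good {d : Dat F f} (hd : GoodD d) {q : F.Q} {k : H}
    (h1 : k • F.vx q = F.vx q) (h2 : k • F.vy q = F.vy q) (g : H) :
    psi d q (g * k) = psi d q g := by
  rw [psi_mul, hd q k h1 h2, h1, h2]
  unfold psi
  abel

theorem psi_congr {d : Dat F f} (hd : GoodD d) {q q' : F.Q} {g g' : H}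
    (h1 : g • F.vx q = g' • F.vx q') (h2 : g • F.vy q = g' • F.vy q') :
    psi d q g = psi d q' g' := by
  have h3 : (g'⁻¹ * g) • F.vx q = F.vx q' := by rw [mul_smul, h1, inv_smul_smul]
  have h4 : (g'⁻¹ * g) • F.vy q = F.vy q' := by rw [mul_smul, h2, inv_smul_smul]
  have h5 := F.uniq q q' _ h3 h4
  subst h5
  rw [← psi_mul_of_good hd h3 h4 g', mul_inv_cancel_left]

open Classical in
/-- the cochain on the oriented edges -/
noncomputable def bb (d : Dat F f) (u v : S.V) : V2 Γ :=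
  if h : ∃ q, ∃ g : H, g • F.vx q = u ∧ g • F.vy q = v then
    psi d h.choose h.choose_spec.choose
  else if h : ∃ q, ∃ g : H, g • F.vx q = v ∧ g • F.vy q = u then
    - psi d h.choose h.choose_spec.choose
  else 0

theorem bb_pos {d : Dat F f} (hd : GoodD d) {u v : S.V} {q : F.Q} {g : H}
    (h1 : g • F.vx q = u) (h2 : g • F.vy q = v) : bb d u v = psi d q g := by
  have h : ∃ q, ∃ g : H, g • F.vx q = u ∧ g • F.vy q = v := ⟨q, g, h1, h2⟩
  unfold bb
  rw [dif_pos h]
  have h3 := h.choose_spec.choose_spec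
  exact psi_congr hd (h3.1.trans h1.symm) (h3.2.trans h2.symm)

theorem bb_neg {d : Dat F f} (hd : GoodD d) {u v : S.V} {q : F.Q} {g : H}
    (h1 : g • F.vx q = v) (h2 : g • F.vy q = u) : bb d u v = - psi d q g := by
  have h0 : ¬ ∃ q, ∃ g : H, g • F.vx q = u ∧ g • F.vy q = v := by
    rintro ⟨q', g', h3, h4⟩
    refine F.noflip q q' (g'⁻¹ * g) ?_ ?_
    · rw [mul_smul, h1, ← h4, inv_smul_smul]
    · rw [mul_smul, h2, ← h3, inv_smul_smul]
  have h : ∃ q, ∃ g : H, g • F.vx q = v ∧ g • F.vy q = u := ⟨q, g, h1, h2⟩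
  unfold bb
  rw [dif_neg h0, dif_pos h]
  have h3 := h.choose_spec.choose_spec
  rw [psi_congr hd (h3.1.trans h1.symm) (h3.2.trans h2.symm)]

theorem bb_symm {d : Dat F f} (hd : GoodD d) {u v : S.V} (h : S.T.Adj u v) :
    bb d v u = - bb d u v := by
  obtain ⟨q, g, ⟨h1, h2⟩ | ⟨h1, h2⟩⟩ := F.ex u v h
  · rw [bb_neg hd h1 h2, bb_pos hd h1 h2]
  · rw [bb_pos hd h1 h2, bb_neg hd h1 h2, neg_neg]

theorem bb_smul {d : Dat F f} (hd : GoodD d) (g : H) {u v : S.V} (h : S.T.Adj u v) :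
    bb d (g • u) (g • v) = lam (f g) (bb d u v) + aa d g v - aa d g u := by
  obtain ⟨q, k, ⟨h1, h2⟩ | ⟨h1, h2⟩⟩ := F.ex u v h
  · rw [bb_pos hd (q := q) (g := g * k) (by rw [mul_smul, h1]) (by rw [mul_smul, h2]),
      bb_pos hd h1 h2, psi_mul, h1, h2]
  · rw [bb_neg hd (q := q) (g := g * k) (by rw [mul_smul, h1]) (by rw [mul_smul, h2]),
      bb_neg hd h1 h2, psi_mul, h1, h2, map_neg]
    abel

/-- The cocycle of `H` obtained by gluing. -/
theorem exists_glue {d : Dat F f} (hd : GoodD d) (o : S.V) :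
    ∃ (β : S.V → V2 Γ) (c : H → V2 Γ), β o = 0 ∧ (∀ u v, S.T.Adj u v → β u = bb d u v + β v) ∧
      Coc f c ∧ ∀ g x, c g = aa d g x + β (g • x) - lam (f g) (β x) := by
  obtain ⟨β, h0, hβ⟩ := exists_potential S.tree (bb d) (fun u v h => bb_symm hd h) o
  have h1 : ∀ (g : H) (u v : S.V), S.T.Adj u v →
      aa d g u + β (g • u) - lam (f g) (β u) = aa d g v + β (g • v) - lam (f g) (β v) := by
    intro g u v h
    rw [hβ u v h, hβ _ _ (S.adj g u v h), bb_smul hd g h, map_add]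
    abel
  have h2 : ∀ (g : H) (u v : S.V),
      aa d g u + β (g • u) - lam (f g) (β u) = aa d g v + β (g • v) - lam (f g) (β v) := by
    intro g u v
    obtain ⟨p⟩ := S.tree.connected u v
    induction p with
    | nil => rfl
    | cons h _ ih => exact (h1 g _ _ h).trans ih
  refine ⟨β, fun g => aa d g o + β (g • o) - lam (f g) (β o), h0, hβ, fun g h => ?_,
    fun g x => h2 g o x⟩
  show aa d (g * h) o + β ((g * h) • o) - lam (f (g * h)) (β o) =
    aa d g o + β (g • o) - lam (f g) (β o) +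
      lam (f g) (aa d h o + β (h • o) - lam (f h) (β o))
  rw [h2 g o (h • o), aa_mul, mul_smul, map_mul, lam_mul, map_sub, map_add]
  abel

end Pool.Agent.Helper21.SG
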